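import Mathlib

/-!
MP_6ff0c5_lc: LQ instances (linear forms and quadratic gates), and systems of linear equations and squarings.

An LQ instance has gates `g = 0, …, G - 1`, each one acting on its own three variables `3g, 3g+1, 3g+2`, and further
variables `3G, …, N - 1`.  All conditions are strict inequalities:
* `0 < z_i < 1` for every variable;
* `c + ∑ s z_i > 0` for the forms, `c ∈ {-1, 0, 1}`, `s ∈ {-1, 0, 1}`;
* gate `false` (type I): `z_{3g}² > z_{3g+1}² + z_{3g+2}²`; gate `true` (type II): `z_{3g}² + z_{3g+1}² > z_{3g+2}²`.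
`Inst.Sol I ε z` says that all these inequalities hold up to an error `ε` (a margin if `ε < 0`).
-/

set_option autoImplicit false

namespace Pool.Agent.Lib.MP_6ff0c5_lc.LQ

/-- A linear form: a constant and a list of variables with coefficients. -/
abbrev Form := ℤ × List (ℤ × ℕ)

/-- the linear part -/
noncomputable def lsum (z : ℕ → ℝ) (l : List (ℤ × ℕ)) : ℝ := (l.map fun p => (p.1 : ℝ) * z p.2).sum

/-- the value of a form -/
noncomputable def Form.eval (z : ℕ → ℝ) (f : Form) : ℝ := (f.1 : ℝ) + lsum z f.2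

/-- An LQ instance. -/
structure Inst where
  gates : List Bool
  nv : ℕ
  forms : List Form

/-- the number of variables -/
def Inst.N (I : Inst) : ℕ := 3 * I.gates.length + I.nv

/-- the value of a gate -/
def gateVal (b : Bool) (x y w : ℝ) : ℝ := if b then x ^ 2 + y ^ 2 - w ^ 2 else x ^ 2 - y ^ 2 - w ^ 2

/-- Solutions up to an error `ε` (with a margin `-ε`, if `ε < 0`). -/
def Inst.Sol (I : Inst) (ε : ℝ) (z : ℕ → ℝ) : Prop :=
  (∀ i < I.N, -ε < z i ∧ z i < 1 + ε) ∧ (∀ f ∈ I.forms, -ε < Form.eval z f) ∧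
    ∀ (g : ℕ) (h : g < I.gates.length), -ε < gateVal I.gates[g] (z (3 * g)) (z (3 * g + 1)) (z (3 * g + 2))

/-- Well-formed instances: coefficients in `{-1, 0, 1}`, every variable at most once in a form. -/
def Inst.WF (I : Inst) : Prop :=
  ∀ f ∈ I.forms, (f.1 = -1 ∨ f.1 = 0 ∨ f.1 = 1) ∧ (∀ p ∈ f.2, (p.1 = -1 ∨ p.1 = 0 ∨ p.1 = 1) ∧ p.2 < I.N) ∧
    (f.2.map Prod.snd).Nodup

/-- A system of linear equations `c + ∑ s u_i = 0` and squarings `u_j = u_i²` in `n` real unknowns. -/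
structure Sys where
  n : ℕ
  lins : List Form
  sqs : List (ℕ × ℕ)

/-- Solutions of a system. -/
def Sys.Sat (S : Sys) (u : ℕ → ℝ) : Prop :=
  (∀ f ∈ S.lins, Form.eval u f = 0) ∧ ∀ q ∈ S.sqs, u q.2 = u q.1 ^ 2

/-- Well-formed systems: coefficients in `{-1, 0, 1}`, at most `8` summands. -/
def Sys.WF (S : Sys) : Prop :=
  (∀ f ∈ S.lins, (f.1 = -1 ∨ f.1 = 0 ∨ f.1 = 1) ∧ f.2.length ≤ 8 ∧
    ∀ p ∈ f.2, (p.1 = -1 ∨ p.1 = 0 ∨ p.1 = 1) ∧ p.2 < S.n) ∧
  ∀ q ∈ S.sqs, q.1 < S.n ∧ q.2 < S.n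

end Pool.Agent.Lib.MP_6ff0c5_lc.LQ
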