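import Pool.Agent.Lib.MP_6ff0c5_lc.LQ.WF

/-!
MP_6ff0c5_lc: systems of linear equations and multiplications, reduced to systems of linear equations and squarings
with positive solutions, and then to LQ instances.
-/

set_option autoImplicit false

open MvPolynomial

namespace Pool.Agent.Lib.MP_6ff0c5_lc.LQ

/-- A system of linear equations `c + ∑ s x_i = 0` and multiplications `x_i x_j = x_k` in `n` real unknowns. -/
structure Sys0 where
  n : ℕ
  lins : List Form
  muls : List (ℕ × ℕ × ℕ)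

/-- Solutions of a system. -/
def Sys0.Sat (S : Sys0) (x : ℕ → ℝ) : Prop :=
  (∀ f ∈ S.lins, Form.eval x f = 0) ∧ ∀ q ∈ S.muls, x q.1 * x q.2.1 = x q.2.2

/-- Well-formed systems: coefficients in `{-1, 0, 1}`, at most `4` summands. -/
def Sys0.WF (S : Sys0) : Prop :=
  (∀ f ∈ S.lins, (f.1 = -1 ∨ f.1 = 0 ∨ f.1 = 1) ∧ f.2.length ≤ 4 ∧
    ∀ p ∈ f.2, (p.1 = -1 ∨ p.1 = 0 ∨ p.1 = 1) ∧ p.2 < S.n) ∧
  ∀ q ∈ S.muls, q.1 < S.n ∧ q.2.1 < S.n ∧ q.2.2 < S.n

/-- the number `N` of the gap theorem -/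
def Sys0.gN (S : Sys0) : ℕ := Gap.gapN S.n (7 + S.lins.length + S.muls.length)

/-- the split of a linear form -/
def splitL (l : List (ℤ × ℕ)) : List (ℤ × ℕ) := l.flatMap fun e => [(e.1, 2 * e.2), (-e.1, 2 * e.2 + 1)]

/-- the linear equations of a multiplication, the new variables are `b, …, b + 7` -/
def mulL (b i j k : ℕ) : List Form :=
  [(0, [(1, b), (-1, 2 * i), (-1, 2 * j)]), (0, [(1, b + 1), (-1, 2 * i + 1), (-1, 2 * j + 1)]),
    (0, [(1, b + 2), (-1, 2 * i), (-1, 2 * j + 1)]), (0, [(1, b + 3), (-1, 2 * i + 1), (-1, 2 * j)]),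
    (0, [(1, b + 4), (1, b + 5), (-1, b + 6), (-1, b + 7), (-1, 2 * k), (-1, 2 * k), (1, 2 * k + 1), (1, 2 * k + 1)])]

/-- the squarings of a multiplication -/
def mulS (b : ℕ) : List (ℕ × ℕ) := [(b, b + 4), (b + 1, b + 5), (b + 2, b + 6), (b + 3, b + 7)]

/-- the positive system -/
def Sys0.pos (S : Sys0) : Sys where
  n := 2 * S.n + 8 * S.muls.length
  lins := S.lins.map (fun f => (f.1, splitL f.2)) ++
    S.muls.zipIdx.flatMap fun q => mulL (2 * S.n + 8 * q.2) q.1.1 q.1.2.1 q.1.2.2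
  sqs := S.muls.zipIdx.flatMap fun q => mulS (2 * S.n + 8 * q.2)

/-- The reduction to LQ instances. -/
def redA (S : Sys0) : Inst × ℕ := red (S.gN + 4) S.pos

theorem splitL_length (l : List (ℤ × ℕ)) : (splitL l).length = 2 * l.length := by
  unfold splitL
  induction l with
  | nil => rfl
  | cons e l ih => rw [List.flatMap_cons, List.length_append, ih]; simp; ring

theorem lsum_splitL (u : ℕ → ℝ) (l : List (ℤ × ℕ)) :
    lsum u (splitL l) = lsum (fun i => u (2 * i) - u (2 * i + 1)) l := by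
  unfold splitL lsum
  induction l with
  | nil => simp
  | cons e l ih =>
    rw [List.flatMap_cons, List.map_append, List.sum_append, ih]
    simp only [List.map_cons, List.map_nil, List.sum_cons, List.sum_nil]
    push_cast
    ring

theorem pos_wf {S : Sys0} (hS : S.WF) : S.pos.WF := by
  constructor
  · intro f hf
    unfold Sys0.pos at hf ⊢
    simp only [List.mem_append, List.mem_map, List.mem_flatMap] at hf
    rcases hf with ⟨f, hf, rfl⟩ | ⟨⟨q, qi⟩, hq, hf⟩
    · obtain ⟨w1, w2, w3⟩ := hS.1 f hf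
      refine ⟨w1, ?_, ?_⟩
      · show (splitL f.2).length ≤ 8
        rw [splitL_length]
        omega
      · intro p hp
        have hp' : p ∈ splitL f.2 := hp
        unfold splitL at hp'
        rw [List.mem_flatMap] at hp'
        obtain ⟨e, he, hp'⟩ := hp'
        obtain ⟨a1, a2⟩ := w3 e he
        simp only [List.mem_cons, List.not_mem_nil, or_false] at hp'
        show _ ∧ p.2 < 2 * S.n + 8 * S.muls.length
        rcases hp' with rfl | rfl
        · exact ⟨a1, by simp only; omega⟩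
        · refine ⟨?_, by simp only; omega⟩
          rcases a1 with h | h | h <;> rw [h] <;> simp
    · rw [List.mem_iff_getElem] at hq
      obtain ⟨q', hq'', he⟩ := hq
      rw [List.getElem_zipIdx] at he
      simp only [Nat.zero_add, Prod.mk.injEq] at he
      obtain ⟨he1, he2⟩ := he
      subst he2
      have hql : q' < S.muls.length := by simpa using hq''
      obtain ⟨w1, w2, w3⟩ := hS.2 S.muls[q'] (List.getElem_mem hql)
      rw [he1] at w1 w2 w3
      unfold mulL at hf
      simp only [List.mem_cons, List.not_mem_nil, or_false] at hf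
      rcases hf with rfl | rfl | rfl | rfl | rfl <;> refine ⟨by simp, by simp, ?_⟩ <;> simp <;> omega
  · intro p hp
    unfold Sys0.pos at hp ⊢
    simp only [List.mem_flatMap] at hp
    obtain ⟨⟨q, qi⟩, hq, hp⟩ := hp
    rw [List.mem_iff_getElem] at hq
    obtain ⟨q', hq'', he⟩ := hq
    rw [List.getElem_zipIdx] at he
    simp only [Nat.zero_add, Prod.mk.injEq] at he
    obtain ⟨he1, he2⟩ := he
    subst he2
    have hql : q' < S.muls.length := by simpa using hq''
    unfold mulS at hp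
    simp only [List.mem_cons, List.not_mem_nil, or_false] at hp
    rcases hp with rfl | rfl | rfl | rfl <;> simp <;> omega

theorem pos_sound {S : Sys0} {u : ℕ → ℝ} (h : S.pos.Sat u) : S.Sat fun i => u (2 * i) - u (2 * i + 1) := by
  obtain ⟨h1, h2⟩ := h
  unfold Sys0.pos at h1 h2
  simp only [List.forall_mem_append, List.mem_map, List.mem_flatMap] at h1 h2
  obtain ⟨h0, h1⟩ := h1
  constructor
  · intro f hf
    have := h0 (f.1, splitL f.2) ⟨f, hf, rfl⟩
    unfold Form.eval at this ⊢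
    rw [← lsum_splitL]
    exact this
  · intro q hq
    obtain ⟨q', hq', rfl⟩ := List.mem_iff_getElem.1 hq
    have hmem : (S.muls[q'], q') ∈ S.muls.zipIdx := by
      rw [List.mem_iff_getElem]
      exact ⟨q', by simpa using hq', by simp⟩
    have e1 : ∀ f ∈ mulL (2 * S.n + 8 * q') S.muls[q'].1 S.muls[q'].2.1 S.muls[q'].2.2, Form.eval u f = 0 :=
      fun f hf => h1 f ⟨_, hmem, hf⟩
    have e2 : ∀ p ∈ mulS (2 * S.n + 8 * q'), u p.2 = u p.1 ^ 2 := fun p hp => h2 p ⟨_, hmem, hp⟩
    unfold mulL at e1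
    unfold mulS at e2
    simp only [List.forall_mem_cons, Form.eval, lsum, List.map_cons, List.map_nil, List.sum_cons, List.sum_nil] at e1 e2
    push_cast at e1
    obtain ⟨a1, a2, a3, a4, a5, -⟩ := e1
    obtain ⟨b1, b2, b3, b4, -⟩ := e2
    show (u (2 * S.muls[q'].1) - u (2 * S.muls[q'].1 + 1)) * (u (2 * S.muls[q'].2.1) - u (2 * S.muls[q'].2.1 + 1)) =
      u (2 * S.muls[q'].2.2) - u (2 * S.muls[q'].2.2 + 1)
    generalize S.muls[q'].1 = i at a1 a2 a3 a4 ⊢
    generalize S.muls[q'].2.1 = j at a1 a2 a3 a4 ⊢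
    generalize S.muls[q'].2.2 = k at a5 ⊢
    have c1 : u (2 * S.n + 8 * q') = u (2 * i) + u (2 * j) := by linarith
    have c2 : u (2 * S.n + 8 * q' + 1) = u (2 * i + 1) + u (2 * j + 1) := by linarith
    have c3 : u (2 * S.n + 8 * q' + 2) = u (2 * i) + u (2 * j + 1) := by linarith
    have c4 : u (2 * S.n + 8 * q' + 3) = u (2 * i + 1) + u (2 * j) := by linarith
    rw [c1] at b1
    rw [c2] at b2
    rw [c3] at b3
    rw [c4] at b4
    rw [b1, b2, b3, b4] at a5
    linear_combination a5 / 2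

/-- the values of the positive system -/
noncomputable def posV (S : Sys0) (x : ℕ → ℝ) (i : ℕ) : ℝ :=
  if i < 2 * S.n then (if i % 2 = 0 then |x (i / 2)| + 1 else |x (i / 2)| + 1 - x (i / 2))
  else
    let m := S.muls.getD ((i - 2 * S.n) / 8) (0, 0, 0)
    let a := |x m.1| + 1
    let a' := |x m.1| + 1 - x m.1
    let b := |x m.2.1| + 1
    let b' := |x m.2.1| + 1 - x m.2.1
    match (i - 2 * S.n) % 8 with
    | 0 => a + b
    | 1 => a' + b'
    | 2 => a + b'
    | 3 => a' + b
    | 4 => (a + b) ^ 2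
    | 5 => (a' + b') ^ 2
    | 6 => (a + b') ^ 2
    | _ => (a' + b) ^ 2

theorem pos_complete {S : Sys0} (hS : S.WF) {x : ℕ → ℝ} (h : S.Sat x) : S.pos.Sat (posV S x) := by
  have hv0 : ∀ i < S.n, posV S x (2 * i) = |x i| + 1 := by
    intro i hi
    unfold posV
    have e1 : 2 * i % 2 = 0 := by omega
    have e2 : 2 * i / 2 = i := by omega
    rw [if_pos (by omega), if_pos e1, e2]
  have hv1 : ∀ i < S.n, posV S x (2 * i + 1) = |x i| + 1 - x i := by
    intro i hi
    unfold posV
    have e2 : (2 * i + 1) / 2 = i := by omega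
    rw [if_pos (by omega), if_neg (by omega), e2]
  have hv : ∀ (q : ℕ) (hq : q < S.muls.length),
      posV S x (2 * S.n + 8 * q) = (|x S.muls[q].1| + 1) + (|x S.muls[q].2.1| + 1) ∧
      posV S x (2 * S.n + 8 * q + 1) = (|x S.muls[q].1| + 1 - x S.muls[q].1) + (|x S.muls[q].2.1| + 1 - x S.muls[q].2.1) ∧
      posV S x (2 * S.n + 8 * q + 2) = (|x S.muls[q].1| + 1) + (|x S.muls[q].2.1| + 1 - x S.muls[q].2.1) ∧
      posV S x (2 * S.n + 8 * q + 3) = (|x S.muls[q].1| + 1 - x S.muls[q].1) + (|x S.muls[q].2.1| + 1) ∧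
      posV S x (2 * S.n + 8 * q + 4) = posV S x (2 * S.n + 8 * q) ^ 2 ∧
      posV S x (2 * S.n + 8 * q + 5) = posV S x (2 * S.n + 8 * q + 1) ^ 2 ∧
      posV S x (2 * S.n + 8 * q + 6) = posV S x (2 * S.n + 8 * q + 2) ^ 2 ∧
      posV S x (2 * S.n + 8 * q + 7) = posV S x (2 * S.n + 8 * q + 3) ^ 2 := by
    intro q hq
    have key : ∀ c < 8, (2 * S.n + 8 * q + c - 2 * S.n) / 8 = q ∧ (2 * S.n + 8 * q + c - 2 * S.n) % 8 = c := by
      intro c hc; omega
    have hD : S.muls.getD q (0, 0, 0) = S.muls[q] := List.getD_eq_getElem _ _ hq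
    have a0 : posV S x (2 * S.n + 8 * q) = (|x S.muls[q].1| + 1) + (|x S.muls[q].2.1| + 1) := by
      unfold posV
      obtain ⟨k1, k2⟩ := key 0 (by norm_num)
      rw [add_zero] at k1 k2
      rw [if_neg (by omega), k1, k2, hD]
      rfl
    have a1 : posV S x (2 * S.n + 8 * q + 1) =
        (|x S.muls[q].1| + 1 - x S.muls[q].1) + (|x S.muls[q].2.1| + 1 - x S.muls[q].2.1) := by
      unfold posV
      obtain ⟨k1, k2⟩ := key 1 (by norm_num)
      rw [if_neg (by omega), k1, k2, hD]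
      rfl
    have a2 : posV S x (2 * S.n + 8 * q + 2) = (|x S.muls[q].1| + 1) + (|x S.muls[q].2.1| + 1 - x S.muls[q].2.1) := by
      unfold posV
      obtain ⟨k1, k2⟩ := key 2 (by norm_num)
      rw [if_neg (by omega), k1, k2, hD]
      rfl
    have a3 : posV S x (2 * S.n + 8 * q + 3) = (|x S.muls[q].1| + 1 - x S.muls[q].1) + (|x S.muls[q].2.1| + 1) := by
      unfold posV
      obtain ⟨k1, k2⟩ := key 3 (by norm_num)
      rw [if_neg (by omega), k1, k2, hD]
      rfl
    refine ⟨a0, a1, a2, a3, ?_, ?_, ?_, ?_⟩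
    · rw [a0]
      unfold posV
      obtain ⟨k1, k2⟩ := key 4 (by norm_num)
      rw [if_neg (by omega), k1, k2, hD]
      rfl
    · rw [a1]
      unfold posV
      obtain ⟨k1, k2⟩ := key 5 (by norm_num)
      rw [if_neg (by omega), k1, k2, hD]
      rfl
    · rw [a2]
      unfold posV
      obtain ⟨k1, k2⟩ := key 6 (by norm_num)
      rw [if_neg (by omega), k1, k2, hD]
      rfl
    · rw [a3]
      unfold posV
      obtain ⟨k1, k2⟩ := key 7 (by norm_num)
      rw [if_neg (by omega), k1, k2, hD]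
      rfl
  constructor
  · intro f hf
    unfold Sys0.pos at hf
    simp only [List.mem_append, List.mem_map, List.mem_flatMap] at hf
    rcases hf with ⟨f, hf, rfl⟩ | ⟨⟨q, qi⟩, hq, hf⟩
    · obtain ⟨w1, w2, w3⟩ := hS.1 f hf
      have := h.1 f hf
      unfold Form.eval at this ⊢
      rw [lsum_splitL, ← this]
      congr 1
      refine lsum_congr fun e he => ?_
      have hn := (w3 e he).2
      rw [hv0 _ hn, hv1 _ hn]
      ring
    · rw [List.mem_iff_getElem] at hq
      obtain ⟨q', hq'', he⟩ := hq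
      rw [List.getElem_zipIdx] at he
      simp only [Nat.zero_add, Prod.mk.injEq] at he
      obtain ⟨he1, he2⟩ := he
      subst he2
      have hql : q' < S.muls.length := by simpa using hq''
      obtain ⟨w1, w2, w3⟩ := hS.2 S.muls[q'] (List.getElem_mem hql)
      have hmul := h.2 S.muls[q'] (List.getElem_mem hql)
      obtain ⟨b0, b1, b2, b3, b4, b5, b6, b7⟩ := hv q' hql
      rw [he1] at w1 w2 w3 hmul b0 b1 b2 b3
      obtain ⟨i, j, k⟩ := q
      simp only at w1 w2 w3 hmul b0 b1 b2 b3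
      unfold mulL at hf
      simp only [List.mem_cons, List.not_mem_nil, or_false] at hf
      have i0 := hv0 i w1
      have i1 := hv1 i w1
      have j0 := hv0 j w2
      have j1 := hv1 j w2
      have k0 := hv0 k w3
      have k1 := hv1 k w3
      rcases hf with rfl | rfl | rfl | rfl | rfl
      · simp only [Form.eval, lsum, List.map_cons, List.map_nil, List.sum_cons, List.sum_nil, i0, j0, b0]
        push_cast; ring
      · simp only [Form.eval, lsum, List.map_cons, List.map_nil, List.sum_cons, List.sum_nil, i1, j1, b1]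
        push_cast; ring
      · simp only [Form.eval, lsum, List.map_cons, List.map_nil, List.sum_cons, List.sum_nil, i0, j1, b2]
        push_cast; ring
      · simp only [Form.eval, lsum, List.map_cons, List.map_nil, List.sum_cons, List.sum_nil, i1, j0, b3]
        push_cast; ring
      · simp only [Form.eval, lsum, List.map_cons, List.map_nil, List.sum_cons, List.sum_nil, b4, b5, b6, b7, b0, b1,
          b2, b3, k0, k1, ← hmul]
        push_cast; ring
  · intro p hp
    unfold Sys0.pos at hp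
    simp only [List.mem_flatMap] at hp
    obtain ⟨⟨q, qi⟩, hq, hp⟩ := hp
    rw [List.mem_iff_getElem] at hq
    obtain ⟨q', hq'', he⟩ := hq
    rw [List.getElem_zipIdx] at he
    simp only [Nat.zero_add, Prod.mk.injEq] at he
    obtain ⟨he1, he2⟩ := he
    subst he2
    have hql : q' < S.muls.length := by simpa using hq''
    obtain ⟨b0, b1, b2, b3, b4, b5, b6, b7⟩ := hv q' hql
    unfold mulS at hp
    simp only [List.mem_cons, List.not_mem_nil, or_false] at hp
    rcases hp with rfl | rfl | rfl | rfl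
    · exact b4
    · exact b5
    · exact b6
    · exact b7

theorem posV_bound {S : Sys0} (hS : S.WF) {x : ℕ → ℝ} {R : ℝ} (hR : 1 ≤ R) (hx : ∀ i < S.n, |x i| ≤ R) :
    ∀ i < S.pos.n, 1 ≤ posV S x i ∧ posV S x i ≤ (6 * R) ^ 2 := by
  have hb : ∀ y : ℝ, |y| ≤ R → 1 ≤ |y| + 1 ∧ |y| + 1 ≤ 3 * R ∧ 1 ≤ |y| + 1 - y ∧ |y| + 1 - y ≤ 3 * R := by
    intro y hy
    have h1 := abs_nonneg y
    have h2 := le_abs_self y
    have h3 := neg_abs_le y
    refine ⟨by linarith, by linarith, by linarith, by linarith⟩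
  have hRR : 3 * R ≤ (6 * R) ^ 2 := by nlinarith
  have hRR2 : 6 * R ≤ (6 * R) ^ 2 := by nlinarith
  have hsum : ∀ a b : ℝ, 1 ≤ a → a ≤ 3 * R → 1 ≤ b → b ≤ 3 * R → (1 ≤ a + b ∧ a + b ≤ (6 * R) ^ 2) ∧
      (1 ≤ (a + b) ^ 2 ∧ (a + b) ^ 2 ≤ (6 * R) ^ 2) := by
    intro a b h1 h2 h3 h4
    refine ⟨⟨by linarith, by linarith⟩, ?_, pow_le_pow_left₀ (by linarith) (by linarith) 2⟩
    exact one_le_pow₀ (by linarith)
  intro i hi
  have hi' : i < 2 * S.n + 8 * S.muls.length := hi
  unfold posV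
  by_cases h1 : i < 2 * S.n
  · rw [if_pos h1]
    obtain ⟨a1, a2, a3, a4⟩ := hb _ (hx (i / 2) (by omega))
    split_ifs
    · exact ⟨a1, a2.trans hRR⟩
    · exact ⟨a3, a4.trans hRR⟩
  · rw [if_neg h1]
    have hq : (i - 2 * S.n) / 8 < S.muls.length := by omega
    rw [List.getD_eq_getElem _ _ hq]
    obtain ⟨w1, w2, -⟩ := hS.2 _ (List.getElem_mem hq)
    obtain ⟨a1, a2, a3, a4⟩ := hb _ (hx _ w1)
    obtain ⟨b1, b2, b3, b4⟩ := hb _ (hx _ w2)
    dsimp only
    split
    · exact (hsum _ _ a1 a2 b1 b2).1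
    · exact (hsum _ _ a3 a4 b3 b4).1
    · exact (hsum _ _ a1 a2 b3 b4).1
    · exact (hsum _ _ a3 a4 b1 b2).1
    · exact (hsum _ _ a1 a2 b1 b2).2
    · exact (hsum _ _ a3 a4 b3 b4).2
    · exact (hsum _ _ a1 a2 b3 b4).2
    · exact (hsum _ _ a3 a4 b1 b2).2

/-- the polynomial of a multiplication -/
noncomputable def pmul (n : ℕ) (q : ℕ × ℕ × ℕ) : MvPolynomial (Fin n) ℤ := xv n q.1 * xv n q.2.1 + C (-1) * xv n q.2.2

/-- A solvable system has a solution of bounded size. -/
theorem sys0_gap (S : Sys0) (hS : S.WF) (h : ∃ x, S.Sat x) :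
    ∃ x, S.Sat x ∧ ∀ i < S.n, |x i| ≤ 2 ^ (2 ^ S.gN) := by
  obtain ⟨w1, w2⟩ := hS
  set g : Fin S.lins.length ⊕ Fin S.muls.length → MvPolynomial (Fin S.n) ℤ :=
    Sum.elim (fun i => plin S.n S.lins[i]) (fun i => pmul S.n S.muls[i]) with hg
  have hl1 : ∀ l, Gap.l1 (g l) ≤ 9 := by
    rintro (i | i)
    · have := w1 S.lins[i] (List.getElem_mem _)
      exact l1_plin _ _ this.1 (by omega) fun e he => (this.2.2 e he).1
    · show Gap.l1 (pmul S.n S.muls[i]) ≤ 9
      unfold pmul
      refine (Gap.l1_add_le _ _).trans ?_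
      have h1 := Gap.l1_mul_le (xv S.n S.muls[i].1) (xv S.n S.muls[i].2.1)
      have h2 : Gap.l1 (xv S.n S.muls[i].1) * Gap.l1 (xv S.n S.muls[i].2.1) ≤ 1 * 1 :=
        Nat.mul_le_mul (l1_xv _ _) (l1_xv _ _)
      have h3 : Gap.l1 (C (-1) * xv S.n S.muls[i].2.2) ≤ 1 := by
        refine (Gap.l1_zsmul_le _ _).trans ?_
        have := l1_xv S.n S.muls[i].2.2
        simpa using this
      omega
  have hcard : Fintype.card (Fin S.lins.length ⊕ Fin S.muls.length) = S.lins.length + S.muls.length := by simp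
  have hpow : S.lins.length + S.muls.length ≤ 2 ^ (S.lins.length + S.muls.length) := Nat.lt_two_pow_self.le
  have hgap := Gap.gap_system (n := S.n) (g := g) (a := 7 + S.lins.length + S.muls.length) (by
    rintro (i | i)
    · exact totalDegree_plin _ _
    · show (pmul S.n S.muls[i]).totalDegree ≤ 2
      unfold pmul
      have t1 := totalDegree_xv S.n S.muls[i].1
      have t2 := totalDegree_xv S.n S.muls[i].2.1
      have t3 := totalDegree_xv S.n S.muls[i].2.2
      refine (totalDegree_add _ _).trans (max_le ?_ ?_)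
      · refine (totalDegree_mul _ _).trans ?_
        omega
      · refine (totalDegree_mul _ _).trans ?_
        rw [totalDegree_C]
        omega) (by
    calc ∑ l, Gap.l1 (g l) ^ 2 ≤ ∑ _l : Fin S.lins.length ⊕ Fin S.muls.length, 81 := by
          refine Finset.sum_le_sum fun l _ => ?_
          exact Nat.pow_le_pow_left (hl1 l) 2
      _ = 81 * (S.lins.length + S.muls.length) := by
          rw [Finset.sum_const, Finset.card_univ, hcard, smul_eq_mul, mul_comm]
      _ ≤ 2 ^ 7 * 2 ^ (S.lins.length + S.muls.length) := Nat.mul_le_mul (by norm_num) hpow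
      _ = 2 ^ (7 + S.lins.length + S.muls.length) := by rw [← pow_add, add_assoc]) (by
    rw [hcard]
    refine hpow.trans (Nat.pow_le_pow_right (by norm_num) (by omega)))
  obtain ⟨u, hu1, hu2⟩ := h
  have haev : ∀ y : Fin S.n → ℝ, (∀ l, aeval y (g l) = 0) ↔ S.Sat (ext0 y) := by
    intro y
    constructor
    · intro hy
      constructor
      · intro f hf
        obtain ⟨i, hi, rfl⟩ := List.mem_iff_getElem.1 hf
        have := hy (Sum.inl ⟨i, hi⟩)
        rw [hg, Sum.elim_inl, aeval_plin] at this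
        exact this
      · intro q hq
        obtain ⟨i, hi, rfl⟩ := List.mem_iff_getElem.1 hq
        have := hy (Sum.inr ⟨i, hi⟩)
        rw [hg, Sum.elim_inr] at this
        unfold pmul at this
        simp only [map_add, map_mul, aeval_xv] at this
        simp at this
        linarith
    · rintro ⟨hy1, hy2⟩ (i | i)
      · rw [hg, Sum.elim_inl, aeval_plin]
        exact hy1 _ (List.getElem_mem _)
      · rw [hg, Sum.elim_inr]
        unfold pmul
        simp only [map_add, map_mul, aeval_xv]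
        have := hy2 S.muls[i] (List.getElem_mem _)
        simp
        simp at this
        linarith
  have hsat : S.Sat (ext0 (fun i : Fin S.n => u i)) := by
    have hext : ∀ i < S.n, ext0 (fun i : Fin S.n => u i) i = u i := by
      intro i hi
      unfold ext0
      rw [dif_pos hi]
    constructor
    · intro f hf
      rw [← hu1 f hf]
      unfold Form.eval
      rw [lsum_congr (z' := u) fun e he => hext _ ((w1 f hf).2.2 e he).2]
    · intro q hq
      obtain ⟨v1, v2, v3⟩ := w2 q hq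
      rw [hext _ v1, hext _ v2, hext _ v3]
      exact hu2 q hq
  obtain ⟨y, hy1, hy2⟩ := hgap.1 ⟨_, (haev _).2 hsat⟩ S.gN le_rfl
  refine ⟨ext0 y, (haev y).1 hy2, fun i hi => ?_⟩
  unfold ext0
  rw [dif_pos hi]
  exact hy1 _

/-- **Theorem A**: the reduction is correct. -/
theorem redA_complete {S : Sys0} (hS : S.WF) (h : ∃ x, S.Sat x) :
    ∃ z, (redA S).1.Sol (-(1 / 2 ^ (2 ^ (redA S).2))) z := by
  obtain ⟨x, hx, hb⟩ := sys0_gap S hS h
  refine red_complete (pos_wf hS) (S.gN + 4) (pos_complete hS hx) fun i hi => ?_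
  obtain ⟨b1, b2⟩ := posV_bound hS (one_le_pow₀ (by norm_num) : (1 : ℝ) ≤ 2 ^ (2 ^ S.gN)) hb i hi
  refine ⟨b1, b2.trans ?_⟩
  have h1 : 1 ≤ 2 ^ S.gN := Nat.one_le_two_pow
  calc (6 * (2 : ℝ) ^ 2 ^ S.gN) ^ 2 ≤ (2 ^ 3 * (2 : ℝ) ^ 2 ^ S.gN) ^ 2 := by gcongr; norm_num
    _ = 2 ^ ((3 + 2 ^ S.gN) * 2) := by rw [← pow_add, ← pow_mul]
    _ ≤ 2 ^ (2 ^ (S.gN + 4)) := by
        apply pow_le_pow_right₀ (by norm_num)
        have : 2 ^ (S.gN + 4) = 16 * 2 ^ S.gN := by rw [pow_add]; ring
        omega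

theorem redA_sound {S : Sys0} (hS : S.WF) (h : ∃ z, (redA S).1.Sol (1 / 2 ^ (2 ^ (redA S).2)) z) :
    ∃ x, S.Sat x := by
  obtain ⟨z, hz⟩ := h
  obtain ⟨u, hu⟩ := red_sound (pos_wf hS) (S.gN + 4) hz
  exact ⟨_, pos_sound hu⟩

theorem redA_wf {S : Sys0} (hS : S.WF) : (redA S).1.WF := red_wf (pos_wf hS) _

end Pool.Agent.Lib.MP_6ff0c5_lc.LQ
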