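import Pool.Agent.Lib.MP_6ff0c5_lc.LQ.Def
import Pool.Agent.Lib.MP_6ff0c5_lc.Gap.Main

/-!
MP_6ff0c5_lc: the reduction from systems to LQ instances.
-/

set_option autoImplicit false

namespace Pool.Agent.Lib.MP_6ff0c5_lc.LQ

/-- parameters of the reduction -/
structure Par where
  r : ℕ
  s : ℕ
  m : ℕ

/-- the number of gates -/
def Par.G (P : Par) : ℕ := P.r + P.s + 2 * P.m

def Par.vh (P : Par) : ℕ := 3 * P.G
def Par.vh' (P : Par) : ℕ := 3 * P.G + 1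
def Par.vD (P : Par) (k : ℕ) : ℕ := 3 * P.G + 2 + k
def Par.vT (P : Par) (k : ℕ) : ℕ := 3 * P.G + P.r + 3 + k
def Par.vU (P : Par) (i p : ℕ) : ℕ := 3 * P.G + P.r + P.s + 4 + 8 * i + p

/-- the gates -/
def Par.gate (P : Par) (g : ℕ) : Bool :=
  if g < P.r then false else if g < P.r + P.s then true else decide ((g - (P.r + P.s)) % 2 = 0)

def Par.fbase (P : Par) : List Form :=
  [(-1, [(1, P.vh), (1, P.vh')]), (0, [(1, P.vh), (-1, P.vh')]), (0, [(1, P.vD 0), (-1, P.vh)]),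
    (1, [(-1, P.vh), (-1, P.vD P.r)]), (0, [(1, P.vD P.r), (-1, P.vT 0)])]

def Par.fD (P : Par) (k : ℕ) : List Form :=
  [(0, [(1, P.vh), (1, P.vD (k + 1)), (-1, 3 * k)]), (0, [(1, 3 * k + 1), (-1, P.vh), (1, P.vD (k + 1))]),
    (0, [(1, 3 * k + 2), (-1, P.vD k)])]

def Par.fT (P : Par) (k : ℕ) : List Form :=
  [(0, [(1, P.vh), (-1, P.vT (k + 1)), (-1, 3 * (P.r + k))]), (0, [(1, P.vT k), (-1, 3 * (P.r + k) + 1)]),
    (0, [(1, 3 * (P.r + k) + 2), (-1, P.vh), (-1, P.vT (k + 1))])]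

/-- the copy forms -/
def Par.fC (P : Par) (i : ℕ) : List Form :=
  (List.range 7).flatMap fun p =>
    [(0, [(1, P.vU i p), (-1, P.vU i (p + 1)), (1, P.vT P.s)]),
      (0, [(-1, P.vU i p), (1, P.vU i (p + 1)), (1, P.vT P.s)])]

/-- the forms of a linear equation -/
def Par.fL (P : Par) (f : Form) : List Form :=
  [(0, (f.1, P.vD P.r) :: (1, P.vT P.s) :: f.2.mapIdx fun p e => (e.1, P.vU e.2 p)),
    (0, (-f.1, P.vD P.r) :: (1, P.vT P.s) :: f.2.mapIdx fun p e => (-e.1, P.vU e.2 p))]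

/-- the forms of a squaring, `g` is the number of its first gate -/
def Par.fS (P : Par) (g i j : ℕ) : List Form :=
  [(0, [(1, P.vU j 0), (-1, P.vD P.r), (1, P.vT P.s), (-1, 3 * g)]),
    (0, [(1, P.vU i 0), (1, P.vU i 1), (1, P.vT P.s), (-1, 3 * g + 1)]),
    (0, [(1, 3 * g + 2), (-1, P.vU j 0), (-1, P.vD P.r)]),
    (0, [(1, P.vU j 0), (1, P.vD P.r), (1, P.vT P.s), (-1, 3 * (g + 1))]),
    (0, [(1, 3 * (g + 1) + 1), (-1, P.vU j 0), (1, P.vD P.r)]),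
    (0, [(1, 3 * (g + 1) + 2), (-1, P.vU i 0), (-1, P.vU i 1)])]

/-- the instance -/
def Par.inst (P : Par) (S : Sys) : Inst where
  gates := (List.range P.G).map P.gate
  nv := P.r + P.s + 4 + 8 * S.n
  forms := P.fbase ++ ((List.range P.r).flatMap P.fD ++ ((List.range P.s).flatMap P.fT ++
    ((List.range S.n).flatMap P.fC ++ (S.lins.flatMap P.fL ++
      S.sqs.zipIdx.flatMap fun q => P.fS (P.r + P.s + 2 * q.2) q.1.1 q.1.2))))

/-- the number `N` of the gap theorem, for a system -/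
def Sys.gN (S : Sys) : ℕ := Gap.gapN S.n (7 + S.lins.length + S.sqs.length)

/-- the parameters for a system with solutions bounded by `2 ^ 2 ^ ρ` -/
def Sys.par (S : Sys) (ρ : ℕ) : Par where
  r := S.gN + ρ + 3
  s := 2 * S.gN + ρ + 13
  m := S.sqs.length

/-- the reduction -/
def red (ρ : ℕ) (S : Sys) : Inst × ℕ :=
  ((S.par ρ).inst S, (S.par ρ).r + (S.par ρ).s + 10)

end Pool.Agent.Lib.MP_6ff0c5_lc.LQ
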