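import Mathlib
import Pool.Agent.Lib.MP_6ff0c5_lc.LQ.Red

section

section

/-!
MP_6ff0c5_lc: real inequalities for the gates and the chains.
-/

set_option autoImplicit false

namespace Pool.Agent.Lib.MP_6ff0c5_lc.LQ

/-- upper bound of a square by a one-sided approximation -/
theorem sq_up {a α ε : ℝ} (hε : 0 < ε) (hε1 : ε ≤ 1) (ha : -ε < a) (ha2 : a < α + ε) (hα : α ≤ 4) :
    a ^ 2 ≤ α ^ 2 + 10 * ε := by
  rcases le_total 0 a with h | h
  · rcases le_total 0 α with h' | h' <;> nlinarith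
  · nlinarith

/-- lower bound of a square by a one-sided approximation -/
theorem sq_low {b β ε : ℝ} (hε : 0 < ε) (hb2 : β - ε < b) (hβ : β ≤ 4) (h0 : 0 ≤ β) :
    β ^ 2 ≤ b ^ 2 + 10 * ε := by
  rcases le_total ε β with h | h <;> nlinarith

theorem soundI {a b c α β γ ε : ℝ} (hε : 0 < ε) (hε1 : ε ≤ 1) (ha : -ε < a) (ha2 : a < α + ε) (hα : α ≤ 4)
    (hb : -ε < b) (hb2 : β - ε < b) (hβ : β ≤ 4) (hc : -ε < c) (hc2 : γ - ε < c) (hγ : γ ≤ 4)
    (h : -ε < a ^ 2 - b ^ 2 - c ^ 2) : (max β 0) ^ 2 + (max γ 0) ^ 2 ≤ α ^ 2 + 31 * ε := by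
  have h1 := sq_up hε hε1 ha ha2 hα
  have h2 := sq_low (b := b) (β := max β 0) hε (by
    rcases le_total β 0 with h | h
    · rw [max_eq_right h]; linarith
    · rw [max_eq_left h]; exact hb2) (max_le hβ (by norm_num)) (le_max_right _ _)
  have h3 := sq_low (b := c) (β := max γ 0) hε (by
    rcases le_total γ 0 with h | h
    · rw [max_eq_right h]; linarith
    · rw [max_eq_left h]; exact hc2) (max_le hγ (by norm_num)) (le_max_right _ _)
  linarith

theorem soundII {a b c α β γ ε : ℝ} (hε : 0 < ε) (hε1 : ε ≤ 1) (ha : -ε < a) (ha2 : a < α + ε) (hα : α ≤ 4)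
    (hb : -ε < b) (hb2 : b < β + ε) (hβ : β ≤ 4) (hc : -ε < c) (hc2 : γ - ε < c) (hγ : γ ≤ 4)
    (h : -ε < a ^ 2 + b ^ 2 - c ^ 2) : (max γ 0) ^ 2 ≤ α ^ 2 + β ^ 2 + 31 * ε := by
  have h1 := sq_up hε hε1 ha ha2 hα
  have h2 := sq_up hε hε1 hb hb2 hβ
  have h3 := sq_low (b := c) (β := max γ 0) hε (by
    rcases le_total γ 0 with h | h
    · rw [max_eq_right h]; linarith
    · rw [max_eq_left h]; exact hc2) (max_le hγ (by norm_num)) (le_max_right _ _)
  linarith

/-- the lower bounds of the first chain -/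
noncomputable def Lo (k : ℕ) : ℝ := 8 * (1 / 32) ^ (2 ^ k)

theorem Lo_succ (k : ℕ) : Lo (k + 1) = Lo k ^ 2 / 8 := by
  unfold Lo
  rw [pow_succ 2 k, pow_mul, mul_pow]
  ring

theorem Lo_zero : Lo 0 = 1 / 4 := by unfold Lo; norm_num

theorem Lo_pos (k : ℕ) : 0 < Lo k := by unfold Lo; positivity

theorem Lo_le (k : ℕ) : Lo k ≤ 1 / 4 := by
  induction k with
  | zero => rw [Lo_zero]
  | succ k ih =>
    rw [Lo_succ]
    have := Lo_pos k
    nlinarith

theorem Lo_anti {j k : ℕ} (h : j ≤ k) : Lo k ≤ Lo j := by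
  refine antitone_nat_of_succ_le (f := Lo) (fun m => ?_) h
  rw [Lo_succ]
  have h1 := Lo_pos m
  have h2 := Lo_le m
  nlinarith

/-- one step of the first chain -/
theorem chainD_step {h D D' a b c ε lo : ℝ} (hε : 0 < ε) (hlo : 0 < lo) (hlo4 : lo ≤ 1 / 4) (hεlo : 80 * ε ≤ lo ^ 2)
    (hh : 1 / 2 - ε < h) (hh1 : h < 1 + ε) (hD : lo ≤ D) (hD1 : D < 1 + ε)
    (hD' : -ε < D') (hD'1 : D' < 1 + ε)
    (ha : -ε < a) (ha2 : -ε < h + D' - a) (hb : -ε < b) (hb2 : -ε < b - h + D') (hc : -ε < c) (hc2 : -ε < c - D)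
    (hg : -ε < a ^ 2 - b ^ 2 - c ^ 2) : lo ^ 2 / 8 ≤ D' := by
  have hε1 : ε ≤ 1 / 100 := by nlinarith
  have h1 := soundI (α := h + D') (β := h - D') (γ := D) hε (by linarith) ha (by linarith) (by linarith)
    hb (by linarith) (by linarith) hc (by linarith) (by linarith) hg
  rcases le_total h D' with h2 | h2
  · nlinarith
  · rw [max_eq_left (by linarith), max_eq_left (by linarith)] at h1
    have h3 : 4 * h * D' ≤ 4 * D' + 8 * ε := by
      rcases le_total 0 D' with h4 | h4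
      · nlinarith
      · nlinarith
    have h5 : lo ^ 2 ≤ D ^ 2 := pow_le_pow_left₀ hlo.le hD 2
    nlinarith

/-- the upper bounds of the second chain -/
noncomputable def Be (k : ℕ) : ℝ := 2 * (1 / 2) ^ (2 ^ k)

theorem Be_succ (k : ℕ) : Be (k + 1) = Be k ^ 2 / 2 := by
  unfold Be
  rw [pow_succ 2 k, pow_mul, mul_pow]
  ring

theorem Be_zero : Be 0 = 1 := by unfold Be; norm_num

theorem Be_pos (k : ℕ) : 0 < Be k := by unfold Be; positivity

theorem Be_le (k : ℕ) : Be k ≤ 1 := by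
  induction k with
  | zero => rw [Be_zero]
  | succ k ih =>
    rw [Be_succ]
    have := Be_pos k
    nlinarith

theorem Be_anti {j k : ℕ} (h : j ≤ k) : Be k ≤ Be j := by
  refine antitone_nat_of_succ_le (f := Be) (fun m => ?_) h
  rw [Be_succ]
  have h1 := Be_pos m
  have h2 := Be_le m
  nlinarith

/-- one step of the second chain, raw form -/
theorem chainT_raw {h T T' a b c ε : ℝ} (hε : 0 < ε) (hε1 : ε ≤ 1 / 100)
    (hh : 1 / 2 - ε < h) (hh1 : h < 1 + ε) (hT1 : T < 1 + ε)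
    (hT' : -ε < T') (hT'1 : T' < 1 + ε)
    (ha : -ε < a) (ha2 : -ε < h - T' - a) (hb : -ε < b) (hb2 : -ε < T - b) (hc : -ε < c) (hc2 : -ε < c - h - T')
    (hg : -ε < a ^ 2 + b ^ 2 - c ^ 2) : T' ≤ T ^ 2 / 2 + 20 * ε := by
  have h1 := soundII (α := h - T') (β := T) (γ := h + T') hε (by linarith) ha (by linarith) (by linarith)
    hb (by linarith) (by linarith) hc (by linarith) (by linarith) hg
  rw [max_eq_left (by linarith)] at h1
  have h3 : 2 * T' ≤ 4 * h * T' + 8 * ε := by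
    rcases le_total 0 T' with h4 | h4
    · nlinarith
    · nlinarith
  nlinarith

end Pool.Agent.Lib.MP_6ff0c5_lc.LQ
end

section

/-!
MP_6ff0c5_lc: completeness of the reduction from systems to LQ instances.
-/

set_option autoImplicit false

namespace Pool.Agent.Lib.MP_6ff0c5_lc.LQ

theorem compI {α β γ μ ν : ℝ} (hμ : 0 < μ) (hμ1 : μ ≤ 1) (hν : ν ≤ μ) (hα : α ≤ 1) (hβ : β ≤ 1) (hγ : γ ≤ 1)
    (h : β ^ 2 + γ ^ 2 + 10 * μ ≤ α ^ 2) : ν < (α - μ) ^ 2 - (β + μ) ^ 2 - (γ + μ) ^ 2 := by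
  have e : (α - μ) ^ 2 - (β + μ) ^ 2 - (γ + μ) ^ 2 = α ^ 2 - β ^ 2 - γ ^ 2 - μ * (2 * (α + β + γ) + μ) := by ring
  have h1 : μ * (2 * (α + β + γ) + μ) ≤ μ * 7 := mul_le_mul_of_nonneg_left (by linarith) hμ.le
  rw [e]
  linarith

theorem compII {α β γ μ ν : ℝ} (hμ : 0 < μ) (hν : ν ≤ μ) (hα : α ≤ 1) (hβ : β ≤ 1) (hγ : γ ≤ 1)
    (h : γ ^ 2 + 10 * μ ≤ α ^ 2 + β ^ 2) : ν < (α - μ) ^ 2 + (β - μ) ^ 2 - (γ + μ) ^ 2 := by
  have e : (α - μ) ^ 2 + (β - μ) ^ 2 - (γ + μ) ^ 2 = α ^ 2 + β ^ 2 - γ ^ 2 - μ * (2 * (α + β + γ) - μ) := by ring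
  have h1 : μ * (2 * (α + β + γ) - μ) ≤ μ * 7 := mul_le_mul_of_nonneg_left (by linarith) hμ.le
  rw [e]
  linarith

/-- the values of the first chain -/
noncomputable def Dv (k : ℕ) : ℝ := 2 * (3 / 8) ^ (2 ^ k)

theorem Dv_zero : Dv 0 = 3 / 4 := by unfold Dv; norm_num

theorem Dv_succ (k : ℕ) : Dv (k + 1) = Dv k ^ 2 / 2 := by
  unfold Dv
  rw [pow_succ 2 k, pow_mul, mul_pow]
  ring

theorem Dv_pos (k : ℕ) : 0 < Dv k := by unfold Dv; positivity

theorem Dv_le (k : ℕ) : Dv k ≤ 3 / 4 := by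
  induction k with
  | zero => rw [Dv_zero]
  | succ k ih =>
    rw [Dv_succ]
    have := Dv_pos k
    nlinarith

theorem Dv_anti {j k : ℕ} (h : j ≤ k) : Dv k ≤ Dv j := by
  refine antitone_nat_of_succ_le (f := Dv) (fun m => ?_) h
  rw [Dv_succ]
  have h1 := Dv_pos m
  have h2 := Dv_le m
  nlinarith

/-- the values of the second chain -/
noncomputable def Tv (E : ℝ) (k : ℕ) : ℝ := 4 * (E / 8) ^ (2 ^ k)

theorem Tv_zero (E : ℝ) : Tv E 0 = E / 2 := by unfold Tv; rw [pow_zero, pow_one]; ring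

theorem Tv_succ (E : ℝ) (k : ℕ) : Tv E (k + 1) = Tv E k ^ 2 / 4 := by
  unfold Tv
  rw [pow_succ 2 k, pow_mul, mul_pow]
  ring

theorem Tv_pos {E : ℝ} (hE : 0 < E) (k : ℕ) : 0 < Tv E k := by unfold Tv; positivity

theorem Tv_le {E : ℝ} (hE : 0 < E) (hE1 : E ≤ 1) (k : ℕ) : Tv E k ≤ E / 2 := by
  induction k with
  | zero => rw [Tv_zero]
  | succ k ih =>
    rw [Tv_succ]
    have := Tv_pos hE k
    nlinarith

theorem Tv_anti {E : ℝ} (hE : 0 < E) (hE1 : E ≤ 1) {j k : ℕ} (h : j ≤ k) : Tv E k ≤ Tv E j := by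
  refine antitone_nat_of_succ_le (f := Tv E) (fun m => ?_) h
  rw [Tv_succ]
  have h1 := Tv_pos hE m
  have h2 := Tv_le hE hE1 m
  nlinarith

/-- the values at a gate -/
noncomputable def tri (P : Par) (E T μ : ℝ) (u : ℕ → ℝ) (sqs : List (ℕ × ℕ)) (g : ℕ) : ℝ × ℝ × ℝ :=
  if g < P.r then (5 / 8 + Dv (g + 1) - μ, 5 / 8 - Dv (g + 1) + μ, Dv g + μ)
  else if g < P.r + P.s then
    (5 / 8 - Tv E (g - P.r + 1) - μ, Tv E (g - P.r) - μ, 5 / 8 + Tv E (g - P.r + 1) + μ)
  else if (g - (P.r + P.s)) % 2 = 0 then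
    (E * u (sqs.getD ((g - (P.r + P.s)) / 2) (0, 0)).2 - E + T - μ,
      2 * (E * u (sqs.getD ((g - (P.r + P.s)) / 2) (0, 0)).1) + T - μ,
      E * u (sqs.getD ((g - (P.r + P.s)) / 2) (0, 0)).2 + E + μ)
  else
    (E * u (sqs.getD ((g - (P.r + P.s)) / 2) (0, 0)).2 + E + T - μ,
      E * u (sqs.getD ((g - (P.r + P.s)) / 2) (0, 0)).2 - E + μ,
      2 * (E * u (sqs.getD ((g - (P.r + P.s)) / 2) (0, 0)).1) + μ)

/-- the values of the other variables -/
noncomputable def plainV (P : Par) (E : ℝ) (u : ℕ → ℝ) (p : ℕ) : ℝ :=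
  if p = 0 then 5 / 8 else if p = 1 then 1 / 2 else if p < P.r + 3 then Dv (p - 2)
  else if p < P.r + P.s + 4 then Tv E (p - (P.r + 3)) else E * u ((p - (P.r + P.s + 4)) / 8)

/-- the solution -/
noncomputable def zv (P : Par) (E T μ : ℝ) (u : ℕ → ℝ) (sqs : List (ℕ × ℕ)) (i : ℕ) : ℝ :=
  if i < 3 * P.G then
    if i % 3 = 0 then (tri P E T μ u sqs (i / 3)).1
    else if i % 3 = 1 then (tri P E T μ u sqs (i / 3)).2.1
    else (tri P E T μ u sqs (i / 3)).2.2
  else plainV P E u (i - 3 * P.G)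

section
variable (P : Par) (E T μ : ℝ) (u : ℕ → ℝ) (sqs : List (ℕ × ℕ))

theorem zv_gate {g : ℕ} (hg : g < P.G) : zv P E T μ u sqs (3 * g) = (tri P E T μ u sqs g).1 ∧
    zv P E T μ u sqs (3 * g + 1) = (tri P E T μ u sqs g).2.1 ∧
    zv P E T μ u sqs (3 * g + 2) = (tri P E T μ u sqs g).2.2 := by
  unfold zv
  have a1 : 3 * g % 3 = 0 := by omega
  have a2 : 3 * g / 3 = g := by omega
  have a3 : (3 * g + 1) % 3 = 1 := by omega
  have a4 : (3 * g + 1) / 3 = g := by omega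
  have a5 : (3 * g + 2) % 3 = 2 := by omega
  have a6 : (3 * g + 2) / 3 = g := by omega
  refine ⟨?_, ?_, ?_⟩
  · rw [if_pos (by omega), if_pos a1, a2]
  · rw [if_pos (by omega), if_neg (by omega), if_pos a3, a4]
  · rw [if_pos (by omega), if_neg (by omega), if_neg (by omega), a6]

theorem zv_plain (p : ℕ) : zv P E T μ u sqs (3 * P.G + p) = plainV P E u p := by
  unfold zv
  rw [if_neg (by omega)]
  congr 1
  omega

theorem zv_h : zv P E T μ u sqs P.vh = 5 / 8 := by
  have := zv_plain P E T μ u sqs 0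
  exact this

theorem zv_h' : zv P E T μ u sqs P.vh' = 1 / 2 := by
  have := zv_plain P E T μ u sqs 1
  rw [show P.vh' = 3 * P.G + 1 from rfl, this]
  unfold plainV
  rw [if_neg (by omega), if_pos rfl]

theorem zv_D {k : ℕ} (hk : k ≤ P.r) : zv P E T μ u sqs (P.vD k) = Dv k := by
  have := zv_plain P E T μ u sqs (2 + k)
  rw [show P.vD k = 3 * P.G + (2 + k) by unfold Par.vD; omega, this]
  unfold plainV
  rw [if_neg (by omega), if_neg (by omega), if_pos (by omega)]
  congr 1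
  omega

theorem zv_T {k : ℕ} (hk : k ≤ P.s) : zv P E T μ u sqs (P.vT k) = Tv E k := by
  have := zv_plain P E T μ u sqs (P.r + 3 + k)
  rw [show P.vT k = 3 * P.G + (P.r + 3 + k) by unfold Par.vT; omega, this]
  unfold plainV
  rw [if_neg (by omega), if_neg (by omega), if_neg (by omega), if_pos (by omega)]
  congr 1
  omega

theorem zv_U {i p : ℕ} (hp : p < 8) : zv P E T μ u sqs (P.vU i p) = E * u i := by
  have := zv_plain P E T μ u sqs (P.r + P.s + 4 + 8 * i + p)
  rw [show P.vU i p = 3 * P.G + (P.r + P.s + 4 + 8 * i + p) by unfold Par.vU; omega, this]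
  unfold plainV
  rw [if_neg (by omega), if_neg (by omega), if_neg (by omega), if_neg (by omega)]
  congr 2
  omega

end

theorem Dv_low (r : ℕ) : 2 / 2 ^ (2 * 2 ^ r) ≤ Dv r := by
  unfold Dv
  have h : (1 / 4 : ℝ) ^ (2 ^ r) ≤ (3 / 8) ^ (2 ^ r) := pow_le_pow_left₀ (by norm_num) (by norm_num) _
  have e : (2 : ℝ) / 2 ^ (2 * 2 ^ r) = 2 * (1 / 4) ^ (2 ^ r) := by
    rw [one_div, inv_pow, pow_mul]
    norm_num
    rfl
  rw [e]
  linarith

theorem Dv_up (r : ℕ) : Dv r ≤ 2 / 2 ^ (2 ^ r) := by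
  unfold Dv
  have h : (3 / 8 : ℝ) ^ (2 ^ r) ≤ (1 / 2) ^ (2 ^ r) := pow_le_pow_left₀ (by norm_num) (by norm_num) _
  have e : (2 : ℝ) / 2 ^ (2 ^ r) = 2 * (1 / 2) ^ (2 ^ r) := by
    rw [one_div, inv_pow]
    rfl
  rw [e]
  linarith

end Pool.Agent.Lib.MP_6ff0c5_lc.LQ
end

section

/-!
MP_6ff0c5_lc: consequences of an approximate solution of the LQ instance.
-/

set_option autoImplicit false

namespace Pool.Agent.Lib.MP_6ff0c5_lc.LQ

section
variable {P : Par} {S : Sys} {ε : ℝ} {z : ℕ → ℝ}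

theorem inst_rng (h : (P.inst S).Sol ε z) (i : ℕ) (hi : i < 3 * P.G + (P.r + P.s + 4 + 8 * S.n)) :
    -ε < z i ∧ z i < 1 + ε := by
  apply h.1 i
  unfold Inst.N Par.inst
  simpa using hi

theorem inst_gate (h : (P.inst S).Sol ε z) (g : ℕ) (hg : g < P.G) :
    -ε < gateVal (P.gate g) (z (3 * g)) (z (3 * g + 1)) (z (3 * g + 2)) := by
  have h1 : g < (P.inst S).gates.length := by unfold Par.inst; simpa using hg
  have h2 := h.2.2 g h1
  have h3 : (P.inst S).gates[g] = P.gate g := by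
    simp only [Par.inst, List.getElem_map, List.getElem_range]
  rw [h3] at h2
  exact h2

theorem inst_forms (h : (P.inst S).Sol ε z) :
    (∀ f ∈ P.fbase, -ε < Form.eval z f) ∧ (∀ k < P.r, ∀ f ∈ P.fD k, -ε < Form.eval z f) ∧
    (∀ k < P.s, ∀ f ∈ P.fT k, -ε < Form.eval z f) ∧ (∀ i < S.n, ∀ f ∈ P.fC i, -ε < Form.eval z f) ∧
    (∀ l ∈ S.lins, ∀ f ∈ P.fL l, -ε < Form.eval z f) ∧
    (∀ (q : ℕ) (hq : q < S.sqs.length), ∀ f ∈ P.fS (P.r + P.s + 2 * q) S.sqs[q].1 S.sqs[q].2, -ε < Form.eval z f) := by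
  have h1 := h.2.1
  unfold Par.inst at h1
  simp only [List.forall_mem_append, List.mem_flatMap, List.mem_range] at h1
  obtain ⟨a1, a2, a3, a4, a5, a6⟩ := h1
  refine ⟨a1, fun k hk f hf => a2 f ⟨k, hk, hf⟩, fun k hk f hf => a3 f ⟨k, hk, hf⟩, fun k hk f hf => a4 f ⟨k, hk, hf⟩,
    fun k hk f hf => a5 f ⟨k, hk, hf⟩, fun q hq f hf => a6 f ⟨(S.sqs[q], q), ?_, hf⟩⟩
  rw [List.mem_iff_getElem]
  exact ⟨q, by simpa using hq, by simp⟩

/-- the copies agree -/
theorem copies (h : (P.inst S).Sol ε z) {i : ℕ} (hi : i < S.n) {p : ℕ} (hp : p ≤ 7) :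
    |z (P.vU i p) - z (P.vU i 0)| ≤ p * (z (P.vT P.s) + ε) := by
  have h4 := (inst_forms h).2.2.2.1 i hi
  induction p with
  | zero => simp
  | succ p ih =>
    have ih' := ih (by omega)
    have e1 := h4 (0, [(1, P.vU i p), (-1, P.vU i (p + 1)), (1, P.vT P.s)]) (by
      unfold Par.fC
      rw [List.mem_flatMap]
      exact ⟨p, List.mem_range.2 (by omega), by simp⟩)
    have e2 := h4 (0, [(-1, P.vU i p), (1, P.vU i (p + 1)), (1, P.vT P.s)]) (by
      unfold Par.fC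
      rw [List.mem_flatMap]
      exact ⟨p, List.mem_range.2 (by omega), by simp⟩)
    simp only [Form.eval, lsum, List.map_cons, List.map_nil, List.sum_cons, List.sum_nil] at e1 e2
    push_cast at e1 e2 ⊢
    rw [abs_le] at ih' ⊢
    constructor <;> nlinarith [ih'.1, ih'.2]

/-- a linear equation holds approximately -/
theorem lin_approx (h : (P.inst S).Sol ε z) (hτ : 0 ≤ z (P.vT P.s) + ε) : ∀ (l : List (ℤ × ℕ)) (o : ℕ),
    o + l.length ≤ 8 → (∀ e ∈ l, (e.1 = -1 ∨ e.1 = 0 ∨ e.1 = 1) ∧ e.2 < S.n) →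
    |lsum z (l.mapIdx fun p e => (e.1, P.vU e.2 (p + o))) - lsum (fun i => z (P.vU i 0)) l| ≤
      l.length * (7 * (z (P.vT P.s) + ε))
  | [], o, _, _ => by simp [lsum]
  | e :: l, o, ho, hl => by
    have ih := lin_approx h hτ l (o + 1) (by simp only [List.length_cons] at ho; omega)
      (fun e' he' => hl e' (List.mem_cons_of_mem _ he'))
    obtain ⟨he1, he2⟩ := hl e List.mem_cons_self
    have hc := copies h he2 (p := o) (by simp only [List.length_cons] at ho; omega)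
    have e1 : lsum z ((e :: l).mapIdx fun p e => (e.1, P.vU e.2 (p + o))) =
        (e.1 : ℝ) * z (P.vU e.2 o) + lsum z (l.mapIdx fun p e => (e.1, P.vU e.2 (p + (o + 1)))) := by
      rw [List.mapIdx_cons]
      unfold lsum
      rw [List.map_cons, List.sum_cons, zero_add]
      congr 5
      ext p e
      · rfl
      · show P.vU e.2 (p + 1 + o) = P.vU e.2 (p + (o + 1))
        congr 1
        omega
    have e2 : lsum (fun i => z (P.vU i 0)) (e :: l) = (e.1 : ℝ) * z (P.vU e.2 0) + lsum (fun i => z (P.vU i 0)) l := by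
      unfold lsum
      rw [List.map_cons, List.sum_cons]
    rw [e1, e2]
    have ho7 : (o : ℝ) ≤ 7 := by
      have : o ≤ 7 := by simp only [List.length_cons] at ho; omega
      exact_mod_cast this
    have h3 : |(e.1 : ℝ) * (z (P.vU e.2 o) - z (P.vU e.2 0))| ≤ 7 * (z (P.vT P.s) + ε) := by
      rw [abs_mul]
      have h5 : |(e.1 : ℝ)| ≤ 1 := by rcases he1 with h | h | h <;> rw [h] <;> norm_num
      calc |(e.1 : ℝ)| * |z (P.vU e.2 o) - z (P.vU e.2 0)| ≤ 1 * (o * (z (P.vT P.s) + ε)) := by gcongr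
        _ ≤ 7 * (z (P.vT P.s) + ε) := by rw [one_mul]; gcongr
    calc |(e.1 : ℝ) * z (P.vU e.2 o) + lsum z (l.mapIdx fun p e => (e.1, P.vU e.2 (p + (o + 1)))) -
          ((e.1 : ℝ) * z (P.vU e.2 0) + lsum (fun i => z (P.vU i 0)) l)|
        = |(e.1 : ℝ) * (z (P.vU e.2 o) - z (P.vU e.2 0)) +
          (lsum z (l.mapIdx fun p e => (e.1, P.vU e.2 (p + (o + 1)))) - lsum (fun i => z (P.vU i 0)) l)| := by
          congr 1; ring
      _ ≤ |(e.1 : ℝ) * (z (P.vU e.2 o) - z (P.vU e.2 0))| +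
          |lsum z (l.mapIdx fun p e => (e.1, P.vU e.2 (p + (o + 1)))) - lsum (fun i => z (P.vU i 0)) l| := abs_add_le _ _
      _ ≤ 7 * (z (P.vT P.s) + ε) + l.length * (7 * (z (P.vT P.s) + ε)) := add_le_add h3 ih
      _ = _ := by rw [List.length_cons]; push_cast; ring

theorem lsum_neg (z : ℕ → ℝ) (l : List (ℤ × ℕ)) (P : Par) :
    lsum z (l.mapIdx fun p e => (-e.1, P.vU e.2 p)) = -lsum z (l.mapIdx fun p e => (e.1, P.vU e.2 p)) := by
  have : ∀ (l : List (ℤ × ℕ)) (o : ℕ), lsum z (l.mapIdx fun p e => (-e.1, P.vU e.2 (p + o))) =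
      -lsum z (l.mapIdx fun p e => (e.1, P.vU e.2 (p + o))) := by
    intro l
    induction l with
    | nil => intro o; simp [lsum]
    | cons e l ih =>
      intro o
      have ih' := ih (o + 1)
      unfold lsum at ih' ⊢
      rw [List.mapIdx_cons, List.mapIdx_cons, List.map_cons, List.sum_cons, List.map_cons, List.sum_cons]
      have e1 : (fun (p : ℕ) (e : ℤ × ℕ) => (-e.1, P.vU e.2 (p + 1 + o))) =
          fun (p : ℕ) (e : ℤ × ℕ) => (-e.1, P.vU e.2 (p + (o + 1))) := by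
        ext p e
        · rfl
        · show P.vU e.2 (p + 1 + o) = _
          congr 1; omega
      have e2 : (fun (p : ℕ) (e : ℤ × ℕ) => (e.1, P.vU e.2 (p + 1 + o))) =
          fun (p : ℕ) (e : ℤ × ℕ) => (e.1, P.vU e.2 (p + (o + 1))) := by
        ext p e
        · rfl
        · show P.vU e.2 (p + 1 + o) = _
          congr 1; omega
      rw [e1, e2, ih']
      push_cast
      ring
  exact this l 0

theorem lin_sound (h : (P.inst S).Sol ε z) (hτ : 0 ≤ z (P.vT P.s) + ε) {f : Form} (hf : f ∈ S.lins)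
    (hlen : f.2.length ≤ 8) (hc : ∀ e ∈ f.2, (e.1 = -1 ∨ e.1 = 0 ∨ e.1 = 1) ∧ e.2 < S.n) :
    |(f.1 : ℝ) * z (P.vD P.r) + lsum (fun i => z (P.vU i 0)) f.2| ≤ 57 * (z (P.vT P.s) + ε) := by
  have h5 := (inst_forms h).2.2.2.2.1 f hf
  have e1 := h5 (0, (f.1, P.vD P.r) :: (1, P.vT P.s) :: f.2.mapIdx fun p e => (e.1, P.vU e.2 p)) (by
    unfold Par.fL; simp)
  have e2 := h5 (0, (-f.1, P.vD P.r) :: (1, P.vT P.s) :: f.2.mapIdx fun p e => (-e.1, P.vU e.2 p)) (by
    unfold Par.fL; simp)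
  have e3 := lsum_neg z f.2 P
  have e4 := lin_approx h hτ f.2 0 (by omega) hc
  simp only [add_zero] at e4
  unfold Form.eval at e1 e2
  unfold lsum at e1 e2 e3 e4 ⊢
  simp only [List.map_cons, List.sum_cons] at e1 e2
  rw [e3] at e2
  push_cast at e1 e2
  have hlen' : (f.2.length : ℝ) ≤ 8 := by exact_mod_cast hlen
  have e5 : (f.2.length : ℝ) * (7 * (z (P.vT P.s) + ε)) ≤ 8 * (7 * (z (P.vT P.s) + ε)) := by gcongr
  rw [abs_le] at e4 ⊢
  constructor <;> linarith [e4.1, e4.2]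

end

end Pool.Agent.Lib.MP_6ff0c5_lc.LQ
end

section

/-!
MP_6ff0c5_lc: consequences of an approximate solution of the LQ instance, II.
-/

set_option autoImplicit false

namespace Pool.Agent.Lib.MP_6ff0c5_lc.LQ

/-- the squaring gates, raw form -/
theorem sq_raw {E T ε X0 X1 Y a b c a' b' c' : ℝ} (hε : 0 < ε) (hε1 : ε ≤ 1 / 100) (hE0 : ε ≤ E) (hE : E < 1 + ε)
    (hT : -ε < T) (hT1 : T < 1 + ε) (hX0 : -ε < X0) (hX01 : X0 < 1 + ε) (hX1 : -ε < X1) (hX11 : X1 < 1 + ε)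
    (hY : -ε < Y) (hY1 : Y < 1 + ε) (hX : |X1 - X0| ≤ T + ε)
    (ha : -ε < a) (hb : -ε < b) (hc : -ε < c) (ha' : -ε < a') (hb' : -ε < b') (hc' : -ε < c')
    (g1 : -ε < a ^ 2 + b ^ 2 - c ^ 2) (g2 : -ε < a' ^ 2 - b' ^ 2 - c' ^ 2)
    (f1 : -ε < Y - E + T - a) (f2 : -ε < X0 + X1 + T - b) (f3 : -ε < c - Y - E)
    (f4 : -ε < Y + E + T - a') (f5 : -ε < b' - Y + E) (f6 : -ε < c' - X0 - X1) :
    |E * Y - X0 ^ 2| ≤ 20 * (T + 2 * ε) := by
  set σ := T + 2 * ε with hσ
  have hσ0 : ε < σ := by linarith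
  have hσ1 : σ ≤ 11 / 10 := by linarith
  have hT2 : |T| ≤ σ := by rw [abs_le]; constructor <;> linarith
  obtain ⟨hXa, hXb⟩ := abs_le.1 hX
  obtain ⟨hTa, hTb⟩ := abs_le.1 hT2
  have h1 := soundII (α := Y - E + T) (β := X0 + X1 + T) (γ := Y + E) hε (by linarith) ha (by linarith) (by linarith)
    hb (by linarith) (by linarith) hc (by linarith) (by linarith) g1
  have h2 := soundI (α := Y + E + T) (β := Y - E) (γ := X0 + X1) hε (by linarith) ha' (by linarith) (by linarith)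
    hb' (by linarith) (by linarith) hc' (by linarith) (by linarith) g2
  rw [max_eq_left (by linarith)] at h1
  -- the square of the sum
  have hS1 : |(X0 + X1) ^ 2 - 4 * X0 ^ 2| ≤ σ * (41 / 10) := by
    have : (X0 + X1) ^ 2 - 4 * X0 ^ 2 = (X1 - X0) * (X1 + 3 * X0) := by ring
    rw [this, abs_mul]
    have h3 : |X1 + 3 * X0| ≤ 41 / 10 := by rw [abs_le]; constructor <;> linarith
    exact mul_le_mul (by linarith) h3 (abs_nonneg _) (by linarith)
  have hS2 : |T * (Y - E + X0 + X1 + T)| ≤ σ * 5 := by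
    rw [abs_mul]
    have h3 : |Y - E + X0 + X1 + T| ≤ 5 := by rw [abs_le]; constructor <;> linarith
    exact mul_le_mul hT2 h3 (abs_nonneg _) (by linarith)
  have hS3 : |T * (2 * (Y + E) + T)| ≤ σ * 6 := by
    rw [abs_mul]
    have h3 : |2 * (Y + E) + T| ≤ 6 := by rw [abs_le]; constructor <;> linarith
    exact mul_le_mul hT2 h3 (abs_nonneg _) (by linarith)
  obtain ⟨s1, s1'⟩ := abs_le.1 hS1
  obtain ⟨s2, s2'⟩ := abs_le.1 hS2
  obtain ⟨s3, s3'⟩ := abs_le.1 hS3
  have hσσ : σ ^ 2 ≤ 2 * σ := by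
    rw [pow_two]
    exact mul_le_mul_of_nonneg_right (by linarith) (by linarith)
  have h4 : (Y - E) ^ 2 ≤ (max (Y - E) 0) ^ 2 + 2 * σ := by
    rcases le_total 0 (Y - E) with h | h
    · rw [max_eq_left h]; linarith
    · rw [max_eq_right h]
      have h6 : (Y - E) ^ 2 ≤ σ ^ 2 := sq_le_sq' (by linarith) (by linarith)
      linarith
  have h5 : (X0 + X1) ^ 2 ≤ (max (X0 + X1) 0) ^ 2 + σ := by
    rcases le_total 0 (X0 + X1) with h | h
    · rw [max_eq_left h]; linarith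
    · rw [max_eq_right h]
      have h7 : (X0 + X1) ^ 2 ≤ (2 * ε) ^ 2 := sq_le_sq' (by linarith) (by linarith)
      have h8 : (2 * ε) ^ 2 ≤ ε / 2 := by
        have : (2 * ε) ^ 2 = 4 * ε * ε := by ring
        rw [this]
        have := mul_le_mul_of_nonneg_right (show 4 * ε ≤ 1 / 2 by linarith) hε.le
        linarith
      linarith
  have i1 : (Y - E + T) ^ 2 + (X0 + X1 + T) ^ 2 =
      (Y - E) ^ 2 + (X0 + X1) ^ 2 + 2 * (T * (Y - E + X0 + X1 + T)) := by ring
  have i2 : (Y + E) ^ 2 = (Y - E) ^ 2 + 4 * (E * Y) := by ring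
  have i3 : (Y + E + T) ^ 2 = (Y - E) ^ 2 + 4 * (E * Y) + T * (2 * (Y + E) + T) := by ring
  rw [i1, i2] at h1
  rw [i3] at h2
  rw [abs_le]
  constructor <;> linarith

section
variable {P : Par} {S : Sys} {ε : ℝ} {z : ℕ → ℝ}

theorem vlt (P : Par) (S : Sys) : P.vh < 3 * P.G + (P.r + P.s + 4 + 8 * S.n) ∧
    P.vh' < 3 * P.G + (P.r + P.s + 4 + 8 * S.n) ∧
    (∀ k ≤ P.r, P.vD k < 3 * P.G + (P.r + P.s + 4 + 8 * S.n)) ∧
    (∀ k ≤ P.s, P.vT k < 3 * P.G + (P.r + P.s + 4 + 8 * S.n)) ∧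
    (∀ i < S.n, ∀ p < 8, P.vU i p < 3 * P.G + (P.r + P.s + 4 + 8 * S.n)) ∧
    (∀ g < P.G, 3 * g < 3 * P.G + (P.r + P.s + 4 + 8 * S.n) ∧ 3 * g + 1 < 3 * P.G + (P.r + P.s + 4 + 8 * S.n) ∧
      3 * g + 2 < 3 * P.G + (P.r + P.s + 4 + 8 * S.n)) := by
  unfold Par.vh Par.vh' Par.vD Par.vT Par.vU
  refine ⟨by omega, by omega, fun k hk => by omega, fun k hk => by omega, fun i hi p hp => by omega,
    fun g hg => by omega⟩

theorem sq_sound (h : (P.inst S).Sol ε z) (hε : 0 < ε) (hε1 : ε ≤ 1 / 100) (hE : ε ≤ z (P.vD P.r))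
    (hm : P.m = S.sqs.length) {q : ℕ} (hq : q < S.sqs.length) (h1 : S.sqs[q].1 < S.n) (h2 : S.sqs[q].2 < S.n) :
    |z (P.vD P.r) * z (P.vU S.sqs[q].2 0) - z (P.vU S.sqs[q].1 0) ^ 2| ≤ 20 * (z (P.vT P.s) + 2 * ε) := by
  have h6 := (inst_forms h).2.2.2.2.2 q hq
  obtain ⟨v1, v2, v3, v4, v5, v6⟩ := vlt P S
  have hG : P.r + P.s + 2 * q + 1 < P.G := by unfold Par.G; omega
  have g1 := inst_gate h (P.r + P.s + 2 * q) (by omega)
  have g2 := inst_gate h (P.r + P.s + 2 * q + 1) hG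
  have t1 : P.gate (P.r + P.s + 2 * q) = true := by
    unfold Par.gate
    rw [if_neg (by omega), if_neg (by omega)]
    simp
  have t2 : P.gate (P.r + P.s + 2 * q + 1) = false := by
    unfold Par.gate
    rw [if_neg (by omega), if_neg (by omega)]
    have : (P.r + P.s + 2 * q + 1 - (P.r + P.s)) % 2 = 1 := by omega
    rw [this]
    rfl
  rw [t1] at g1
  rw [t2] at g2
  simp only [gateVal, if_true] at g1
  simp only [gateVal, Bool.false_eq_true, if_false] at g2
  set g := P.r + P.s + 2 * q with hg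
  set i := S.sqs[q].1 with hi
  set j := S.sqs[q].2 with hj
  unfold Par.fS at h6
  simp only [List.forall_mem_cons, Form.eval, lsum, List.map_cons, List.map_nil, List.sum_cons, List.sum_nil] at h6
  push_cast at h6
  obtain ⟨f1, f2, f3, f4, f5, f6, -⟩ := h6
  have hX : |z (P.vU i 1) - z (P.vU i 0)| ≤ z (P.vT P.s) + ε := by
    have := copies h h1 (p := 1) (by norm_num)
    simpa using this
  obtain ⟨r1, r1'⟩ := inst_rng h _ (v3 P.r le_rfl)
  obtain ⟨r2, r2'⟩ := inst_rng h _ (v4 P.s le_rfl)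
  obtain ⟨r3, r3'⟩ := inst_rng h _ (v5 i h1 0 (by norm_num))
  obtain ⟨r4, r4'⟩ := inst_rng h _ (v5 i h1 1 (by norm_num))
  obtain ⟨r5, r5'⟩ := inst_rng h _ (v5 j h2 0 (by norm_num))
  obtain ⟨w1, w2, w3⟩ := v6 g (by omega)
  obtain ⟨w1', w2', w3'⟩ := v6 (g + 1) hG
  refine sq_raw hε hε1 hE r1' r2 r2' r3 r3' r4 r4' r5 r5' hX (inst_rng h _ w1).1 (inst_rng h _ w2).1
    (inst_rng h _ w3).1 (inst_rng h _ w1').1 (inst_rng h _ w2').1 (inst_rng h _ w3').1 g1 g2 ?_ ?_ ?_ ?_ ?_ ?_ <;>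
    linarith

/-- the lower bounds of the first chain -/
theorem chainD (h : (P.inst S).Sol ε z) (hε : 0 < ε) (hεr : 80 * ε ≤ Lo P.r ^ 2) :
    1 / 2 - ε < z P.vh ∧ z P.vh < 1 + ε ∧ z (P.vD P.r) < 1 / 2 + 3 * ε ∧ ∀ k ≤ P.r, Lo k ≤ z (P.vD k) := by
  obtain ⟨hb, hD, -⟩ := inst_forms h
  obtain ⟨v1, v2, v3, v4, v5, v6⟩ := vlt P S
  unfold Par.fbase at hb
  simp only [List.forall_mem_cons, Form.eval, lsum, List.map_cons, List.map_nil, List.sum_cons, List.sum_nil] at hb
  push_cast at hb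
  obtain ⟨f1, f2, f3, f4, f5, -⟩ := hb
  have hh : 1 / 2 - ε < z P.vh := by linarith
  have hh1 := (inst_rng h _ v1).2
  have hε2 : ε ≤ 1 / 1000 := by
    have := Lo_le P.r
    have := Lo_pos P.r
    nlinarith
  refine ⟨hh, hh1, by linarith, fun k => ?_⟩
  induction k with
  | zero =>
    intro _
    rw [Lo_zero]
    linarith
  | succ k ih =>
    intro hk
    have ih' := ih (by omega)
    have hDk := hD k (by omega)
    unfold Par.fD at hDk
    simp only [List.forall_mem_cons, Form.eval, lsum, List.map_cons, List.map_nil, List.sum_cons, List.sum_nil] at hDk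
    push_cast at hDk
    obtain ⟨g1, g2, g3, -⟩ := hDk
    have hkG : k < P.G := by unfold Par.G; omega
    have hg := inst_gate h k hkG
    have ht : P.gate k = false := by unfold Par.gate; rw [if_pos (by omega)]
    rw [ht] at hg
    simp only [gateVal, Bool.false_eq_true, if_false] at hg
    obtain ⟨w1, w2, w3⟩ := v6 k hkG
    rw [Lo_succ]
    have hlo : Lo P.r ≤ Lo k := Lo_anti (by omega)
    refine chainD_step (lo := Lo k) (h := z P.vh) (D := z (P.vD k)) hε (Lo_pos k) (Lo_le k)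
      (hεr.trans (pow_le_pow_left₀ (Lo_pos _).le hlo 2)) hh hh1 ih' (inst_rng h _ (v3 k (by omega))).2
      (inst_rng h _ (v3 (k + 1) (by omega))).1 (inst_rng h _ (v3 (k + 1) (by omega))).2
      (inst_rng h _ w1).1 (by linarith) (inst_rng h _ w2).1 (by linarith) (inst_rng h _ w3).1 (by linarith) hg

/-- the upper bounds of the second chain -/
theorem chainT (h : (P.inst S).Sol ε z) (hε : 0 < ε) (hεr : 80 * ε ≤ Lo P.r ^ 2)
    (hεs : 60 * ε ≤ Lo P.r ^ 2 * Be P.s ^ 2) : ∀ k < P.s, z (P.vT (k + 1)) ≤ z (P.vD P.r) ^ 2 * Be k := by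
  obtain ⟨hh, hh1, hE, hlo⟩ := chainD h hε hεr
  have hE1 := hlo P.r le_rfl
  obtain ⟨hb, -, hT, -⟩ := inst_forms h
  obtain ⟨v1, v2, v3, v4, v5, v6⟩ := vlt P S
  unfold Par.fbase at hb
  simp only [List.forall_mem_cons, Form.eval, lsum, List.map_cons, List.map_nil, List.sum_cons, List.sum_nil] at hb
  push_cast at hb
  obtain ⟨f1, f2, f3, f4, f5, -⟩ := hb
  set E := z (P.vD P.r) with hEdef
  have hLp := Lo_pos P.r
  have hLl := Lo_le P.r
  have hε2 : ε ≤ 1 / 1000 := by nlinarith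
  have hE2 : Lo P.r ^ 2 ≤ E ^ 2 := pow_le_pow_left₀ hLp.le hE1 2
  have hEpos : 0 < E := hLp.trans_le hE1
  have hE3 : E ^ 2 ≤ 1 / 3 := by nlinarith
  -- one step
  have hstep : ∀ k < P.s, z (P.vT (k + 1)) ≤ z (P.vT k) ^ 2 / 2 + 20 * ε := by
    intro k hk
    have hTk := hT k hk
    unfold Par.fT at hTk
    simp only [List.forall_mem_cons, Form.eval, lsum, List.map_cons, List.map_nil, List.sum_cons, List.sum_nil] at hTk
    push_cast at hTk
    obtain ⟨g1, g2, g3, -⟩ := hTk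
    have hkG : P.r + k < P.G := by unfold Par.G; omega
    have hg := inst_gate h (P.r + k) hkG
    have ht : P.gate (P.r + k) = true := by unfold Par.gate; rw [if_neg (by omega), if_pos (by omega)]
    rw [ht] at hg
    simp only [gateVal, if_true] at hg
    obtain ⟨w1, w2, w3⟩ := v6 (P.r + k) hkG
    exact chainT_raw (h := z P.vh) (T := z (P.vT k)) hε (by linarith) hh hh1 (inst_rng h _ (v4 k (by omega))).2
      (inst_rng h _ (v4 (k + 1) (by omega))).1 (inst_rng h _ (v4 (k + 1) (by omega))).2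
      (inst_rng h _ w1).1 (by linarith) (inst_rng h _ w2).1 (by linarith) (inst_rng h _ w3).1 (by linarith) hg
  intro k
  induction k with
  | zero =>
    intro hk
    have h1 := hstep 0 hk
    have h2 := (inst_rng h _ (v4 0 (by omega))).1
    have h3 : z (P.vT 0) ≤ E + ε := by linarith
    have h4 : z (P.vT 0) ^ 2 ≤ (E + ε) ^ 2 := by
      rw [sq_le_sq, abs_of_pos (show 0 < E + ε by linarith)]
      rw [abs_le]
      constructor <;> nlinarith
    rw [Be_zero]
    nlinarith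
  | succ k ih =>
    intro hk
    have ih' := ih (by omega)
    have h1 := hstep (k + 1) hk
    have h2 := (inst_rng h _ (v4 (k + 1) (by omega))).1
    have hB : Be P.s ≤ Be k := Be_anti (by omega)
    have hBp := Be_pos P.s
    have hBk := Be_pos k
    have hBk1 := Be_le k
    have hBs1 := Be_le P.s
    have h6 : 60 * ε ≤ E ^ 2 * Be k ^ 2 := by
      refine hεs.trans ?_
      gcongr
    have h7 : ε ≤ E ^ 2 * Be k := by nlinarith [sq_nonneg E]
    have h4 : z (P.vT (k + 1)) ^ 2 ≤ (E ^ 2 * Be k) ^ 2 := by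
      rw [sq_le_sq, abs_of_pos (show 0 < E ^ 2 * Be k by positivity)]
      rw [abs_le]
      constructor <;> linarith
    rw [Be_succ]
    have h8 : (E ^ 2 * Be k) ^ 2 ≤ (1 / 3) * (E ^ 2 * Be k ^ 2) := by
      have : (E ^ 2 * Be k) ^ 2 = E ^ 2 * (E ^ 2 * Be k ^ 2) := by ring
      rw [this]
      exact mul_le_mul_of_nonneg_right hE3 (by positivity)
    nlinarith

end

end Pool.Agent.Lib.MP_6ff0c5_lc.LQ
end

section

/-!
MP_6ff0c5_lc: soundness of the reduction from systems to LQ instances.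
-/

set_option autoImplicit false

open MvPolynomial

namespace Pool.Agent.Lib.MP_6ff0c5_lc.LQ

/-! ### The polynomials of a system -/

/-- the variable `i`, or zero -/
noncomputable def xv (n i : ℕ) : MvPolynomial (Fin n) ℤ := if h : i < n then X ⟨i, h⟩ else 0

/-- the extension of a point -/
noncomputable def ext0 {n : ℕ} (x : Fin n → ℝ) (i : ℕ) : ℝ := if h : i < n then x ⟨i, h⟩ else 0

theorem aeval_xv {n : ℕ} (x : Fin n → ℝ) (i : ℕ) : aeval x (xv n i) = ext0 x i := by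
  unfold xv ext0
  split_ifs <;> simp

theorem l1_xv (n i : ℕ) : Gap.l1 (xv n i) ≤ 1 := by
  unfold xv
  split_ifs <;> simp

theorem totalDegree_xv (n i : ℕ) : (xv n i).totalDegree ≤ 1 := by
  unfold xv
  split_ifs
  · exact (totalDegree_X _).le
  · simp

/-- the polynomial of a linear equation -/
noncomputable def plin (n : ℕ) (f : Form) : MvPolynomial (Fin n) ℤ :=
  C f.1 + (f.2.map fun p => C p.1 * xv n p.2).sum

/-- the polynomial of a squaring -/
noncomputable def psq (n : ℕ) (q : ℕ × ℕ) : MvPolynomial (Fin n) ℤ := xv n q.2 + C (-1) * xv n q.1 ^ 2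

theorem aeval_plin {n : ℕ} (x : Fin n → ℝ) (f : Form) : aeval x (plin n f) = Form.eval (ext0 x) f := by
  unfold plin Form.eval lsum
  rw [map_add, map_list_sum, List.map_map]
  congr 1
  · simp
  · congr 1
    apply List.map_congr_left
    intro p _
    simp [aeval_xv]

theorem aeval_psq {n : ℕ} (x : Fin n → ℝ) (q : ℕ × ℕ) : aeval x (psq n q) = ext0 x q.2 - ext0 x q.1 ^ 2 := by
  unfold psq
  simp only [map_add, map_mul, map_pow, aeval_xv]
  simp
  ring

theorem l1_lsum (n : ℕ) (l : List (ℤ × ℕ)) (hc : ∀ e ∈ l, (e.1 = -1 ∨ e.1 = 0 ∨ e.1 = 1)) :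
    Gap.l1 (l.map fun p => C p.1 * xv n p.2).sum ≤ l.length := by
  induction l with
  | nil => simp
  | cons e l ih =>
    rw [List.map_cons, List.sum_cons, List.length_cons]
    refine (Gap.l1_add_le _ _).trans ?_
    have h1 := ih fun e' he' => hc e' (List.mem_cons_of_mem _ he')
    have h2 : Gap.l1 (C e.1 * xv n e.2) ≤ 1 := by
      refine (Gap.l1_zsmul_le _ _).trans ?_
      have h3 := l1_xv n e.2
      have h4 : e.1.natAbs ≤ 1 := by rcases hc e List.mem_cons_self with h | h | h <;> rw [h] <;> simp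
      calc e.1.natAbs * Gap.l1 (xv n e.2) ≤ 1 * 1 := Nat.mul_le_mul h4 h3
        _ = 1 := by norm_num
    omega

theorem l1_plin (n : ℕ) (f : Form) (hf : f.1 = -1 ∨ f.1 = 0 ∨ f.1 = 1) (hl : f.2.length ≤ 8)
    (hc : ∀ e ∈ f.2, (e.1 = -1 ∨ e.1 = 0 ∨ e.1 = 1)) : Gap.l1 (plin n f) ≤ 9 := by
  unfold plin
  refine (Gap.l1_add_le _ _).trans ?_
  have h1 := l1_lsum n f.2 hc
  have h2 : Gap.l1 (C f.1 : MvPolynomial (Fin n) ℤ) ≤ 1 := by
    rw [Gap.l1_C]
    rcases hf with h | h | h <;> rw [h] <;> simp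
  omega

theorem l1_psq (n : ℕ) (q : ℕ × ℕ) : Gap.l1 (psq n q) ≤ 9 := by
  unfold psq
  refine (Gap.l1_add_le _ _).trans ?_
  have h1 := l1_xv n q.2
  have h2 := l1_xv n q.1
  have h3 : Gap.l1 (C (-1) * xv n q.1 ^ 2) ≤ 1 := by
    refine (Gap.l1_zsmul_le _ _).trans ?_
    rw [pow_two]
    have h4 := Gap.l1_mul_le (xv n q.1) (xv n q.1)
    have h5 : Gap.l1 (xv n q.1) * Gap.l1 (xv n q.1) ≤ 1 * 1 := Nat.mul_le_mul h2 h2
    simp only [Int.natAbs_neg, Int.natAbs_one, one_mul]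
    omega
  omega

theorem totalDegree_plin (n : ℕ) (f : Form) : (plin n f).totalDegree ≤ 2 := by
  unfold plin
  refine (totalDegree_add _ _).trans (max_le (by rw [totalDegree_C]; omega) ?_)
  induction f.2 with
  | nil => simp
  | cons e l ih =>
    rw [List.map_cons, List.sum_cons]
    refine (totalDegree_add _ _).trans (max_le ?_ ih)
    refine (totalDegree_mul _ _).trans ?_
    have := totalDegree_xv n e.2
    rw [totalDegree_C]
    omega

theorem totalDegree_psq (n : ℕ) (q : ℕ × ℕ) : (psq n q).totalDegree ≤ 2 := by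
  unfold psq
  have h1 := totalDegree_xv n q.2
  have h2 := totalDegree_xv n q.1
  refine (totalDegree_add _ _).trans (max_le (by omega) ?_)
  refine (totalDegree_mul _ _).trans ?_
  have := totalDegree_pow (xv n q.1) 2
  rw [totalDegree_C]
  omega

theorem lsum_congr {z z' : ℕ → ℝ} {l : List (ℤ × ℕ)} (h : ∀ e ∈ l, z e.2 = z' e.2) : lsum z l = lsum z' l := by
  unfold lsum
  congr 1
  exact List.map_congr_left fun p hp => by rw [h p hp]

theorem lsum_div (z : ℕ → ℝ) (l : List (ℤ × ℕ)) (c : ℝ) : lsum (fun i => z i / c) l = lsum z l / c := by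
  unfold lsum
  induction l with
  | nil => simp
  | cons e l ih =>
    rw [List.map_cons, List.sum_cons, List.map_cons, List.sum_cons, ih]
    ring

/-- The gap theorem for systems. -/
theorem sys_gap (S : Sys) (hS : S.WF) (N1 N2 : ℕ) (h1 : S.gN ≤ N1) (h2 : N1 + S.gN ≤ N2) (u : ℕ → ℝ)
    (hu : ∀ i < S.n, |u i| ≤ 2 ^ (2 ^ N1)) (hlin : ∀ f ∈ S.lins, |Form.eval u f| ≤ 1 / 2 ^ (2 ^ N2))
    (hsq : ∀ q ∈ S.sqs, |u q.2 - u q.1 ^ 2| ≤ 1 / 2 ^ (2 ^ N2)) : ∃ v, S.Sat v := by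
  obtain ⟨w1, w2⟩ := hS
  set g : Fin S.lins.length ⊕ Fin S.sqs.length → MvPolynomial (Fin S.n) ℤ :=
    Sum.elim (fun i => plin S.n S.lins[i]) (fun i => psq S.n S.sqs[i]) with hg
  have hl1 : ∀ l, Gap.l1 (g l) ≤ 9 := by
    rintro (i | i)
    · have := w1 S.lins[i] (List.getElem_mem _)
      exact l1_plin _ _ this.1 this.2.1 fun e he => (this.2.2 e he).1
    · exact l1_psq _ _
  have hcard : Fintype.card (Fin S.lins.length ⊕ Fin S.sqs.length) = S.lins.length + S.sqs.length := by simp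
  have hpow : S.lins.length + S.sqs.length ≤ 2 ^ (S.lins.length + S.sqs.length) := Nat.lt_two_pow_self.le
  have hgap := Gap.gap_system (n := S.n) (g := g) (a := 7 + S.lins.length + S.sqs.length) (by
    rintro (i | i)
    · exact totalDegree_plin _ _
    · exact totalDegree_psq _ _) (by
    calc ∑ l, Gap.l1 (g l) ^ 2 ≤ ∑ _l : Fin S.lins.length ⊕ Fin S.sqs.length, 81 := by
          refine Finset.sum_le_sum fun l _ => ?_
          exact Nat.pow_le_pow_left (hl1 l) 2
      _ = 81 * (S.lins.length + S.sqs.length) := by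
          rw [Finset.sum_const, Finset.card_univ, hcard, smul_eq_mul, mul_comm]
      _ ≤ 2 ^ 7 * 2 ^ (S.lins.length + S.sqs.length) := Nat.mul_le_mul (by norm_num) hpow
      _ = 2 ^ (7 + S.lins.length + S.sqs.length) := by rw [← pow_add, add_assoc]) (by
    rw [hcard]
    refine hpow.trans (Nat.pow_le_pow_right (by norm_num) (by omega)))
  set x : Fin S.n → ℝ := fun i => u i with hx
  have hext : ∀ i < S.n, ext0 x i = u i := by
    intro i hi
    unfold ext0
    rw [dif_pos hi]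
  obtain ⟨y, hy⟩ := hgap.2 N1 N2 h1 h2 ⟨x, fun i => hu i i.2, by
    rintro (i | i)
    · have hi := w1 S.lins[i] (List.getElem_mem _)
      have e1 : aeval x (g (Sum.inl i)) = Form.eval u S.lins[i] := by
        rw [hg, Sum.elim_inl, aeval_plin]
        unfold Form.eval
        rw [lsum_congr (z' := u) fun e he => hext _ (hi.2.2 e he).2]
      rw [e1]
      exact hlin _ (List.getElem_mem _)
    · have hi := w2 S.sqs[i] (List.getElem_mem _)
      have e1 : aeval x (g (Sum.inr i)) = u S.sqs[i].2 - u S.sqs[i].1 ^ 2 := by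
        rw [hg, Sum.elim_inr, aeval_psq, hext _ hi.1, hext _ hi.2]
      rw [e1]
      exact hsq _ (List.getElem_mem _)⟩
  refine ⟨ext0 y, ?_, ?_⟩
  · intro f hf
    obtain ⟨i, hi, rfl⟩ := List.mem_iff_getElem.1 hf
    have := hy (Sum.inl ⟨i, hi⟩)
    rw [hg, Sum.elim_inl, aeval_plin] at this
    exact this
  · intro q hq
    obtain ⟨i, hi, rfl⟩ := List.mem_iff_getElem.1 hq
    have := hy (Sum.inr ⟨i, hi⟩)
    rw [hg, Sum.elim_inr, aeval_psq] at this
    have h3 : ext0 y S.sqs[i].2 - ext0 y S.sqs[i].1 ^ 2 = 0 := this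
    linarith

/-! ### The constants -/

theorem Lo_eq (r : ℕ) : Lo r = 8 / 2 ^ (5 * 2 ^ r) := by
  unfold Lo
  rw [one_div, inv_pow, pow_mul]
  norm_num
  rfl

theorem Be_eq (k : ℕ) : Be k = 2 / 2 ^ (2 ^ k) := by
  unfold Be
  rw [one_div, inv_pow]
  rfl

theorem Lo_sq (r : ℕ) : Lo r ^ 2 = 64 / 2 ^ (10 * 2 ^ r) := by
  rw [Lo_eq, div_pow, ← pow_mul]
  norm_num
  congr 1
  ring

theorem two_pow_pos (k : ℕ) : (0 : ℝ) < 2 ^ k := by positivity

/-- comparison of `c / 2 ^ a` and `d / 2 ^ b` -/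
theorem div_pow_le {c d : ℝ} {a b e : ℕ} (hd : 0 < d) (hc : c ≤ 2 ^ e * d) (hab : b + e ≤ a) :
    c / 2 ^ a ≤ d / 2 ^ b := by
  rw [div_le_div_iff₀ (two_pow_pos a) (two_pow_pos b)]
  calc c * 2 ^ b ≤ (2 ^ e * d) * 2 ^ b := by gcongr
    _ = d * 2 ^ (b + e) := by rw [pow_add]; ring
    _ ≤ d * 2 ^ a := by
      gcongr
      norm_num

/-- **Soundness.** -/
theorem red_sound {S : Sys} (hS : S.WF) (ρ : ℕ) {z : ℕ → ℝ}
    (h : (red ρ S).1.Sol (1 / 2 ^ (2 ^ (red ρ S).2)) z) : ∃ v, S.Sat v := by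
  obtain ⟨P, hP⟩ : ∃ P, P = S.par ρ := ⟨_, rfl⟩
  obtain ⟨K, hK⟩ : ∃ K, K = P.r + P.s + 10 := ⟨_, rfl⟩
  have hK2 : (red ρ S).2 = K := by rw [hK, hP]; rfl
  have hI : (red ρ S).1 = P.inst S := by rw [hP]; rfl
  rw [hK2, hI] at h
  obtain ⟨ε, hε⟩ : ∃ ε : ℝ, ε = 1 / 2 ^ (2 ^ K) := ⟨_, rfl⟩
  rw [← hε] at h
  have hε0 : 0 < ε := by rw [hε]; positivity
  have hr : P.r = S.gN + ρ + 3 := by rw [hP]; rfl
  have hs : P.s = 2 * S.gN + ρ + 13 := by rw [hP]; rfl
  have hm : P.m = S.sqs.length := by rw [hP]; rfl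
  have hKr : 2 ^ K = 1024 * (2 ^ P.r * 2 ^ P.s) := by rw [hK, pow_add, pow_add]; ring
  have h2r : 1 ≤ 2 ^ P.r := Nat.one_le_two_pow
  have h2s : 1 ≤ 2 ^ P.s := Nat.one_le_two_pow
  have hrs1 : 2 ^ P.r ≤ 2 ^ P.r * 2 ^ P.s := Nat.le_mul_of_pos_right _ (by omega)
  have hrs2 : 2 ^ P.s ≤ 2 ^ P.r * 2 ^ P.s := Nat.le_mul_of_pos_left _ (by omega)
  have c1 : 80 * ε ≤ Lo P.r ^ 2 := by
    rw [Lo_sq, hε, mul_one_div]
    exact div_pow_le (e := 1) (by norm_num) (by norm_num) (by omega)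
  have c2 : 60 * ε ≤ Lo P.r ^ 2 * Be P.s ^ 2 := by
    rw [Lo_sq, Be_eq, hε, mul_one_div, div_pow, div_mul_div_comm, ← pow_mul, ← pow_add]
    exact div_pow_le (e := 0) (by norm_num) (by norm_num) (by omega)
  obtain ⟨d1, d2, d3, d4⟩ := chainD h hε0 c1
  have hT := chainT h hε0 c1 c2
  set E := z (P.vD P.r) with hE
  set T := z (P.vT P.s) with hTd
  have hLo := d4 P.r le_rfl
  have hLp := Lo_pos P.r
  have hLl := Lo_le P.r
  have hε2 : ε ≤ 1 / 1000 := by nlinarith
  have hEpos : 0 < E := hLp.trans_le hLo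
  have hEε : ε ≤ E := by nlinarith
  have hE1 : E < 1 := by linarith
  obtain ⟨v1, v2, v3, v4, v5, v6⟩ := vlt P S
  have hTpos : -ε < T := (inst_rng h _ (v4 P.s le_rfl)).1
  have hTB : T ≤ E ^ 2 * Be (P.s - 1) := by
    have := hT (P.s - 1) (by omega)
    have e1 : P.s - 1 + 1 = P.s := by omega
    rw [e1] at this
    exact this
  have hE2 : Lo P.r ^ 2 ≤ E ^ 2 := pow_le_pow_left₀ hLp.le hLo 2
  have hBs : Be P.s ≤ Be (P.s - 1) := Be_anti (by omega)
  have hB0 := Be_pos P.s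
  have hB1 := Be_le P.s
  have hεB : 2 * ε ≤ E ^ 2 * Be (P.s - 1) := by
    have e1 : Lo P.r ^ 2 * Be P.s ^ 2 ≤ E ^ 2 * Be (P.s - 1) := by
      have e2 : Be P.s ^ 2 ≤ Be (P.s - 1) := by nlinarith
      gcongr
    linarith
  have hσ : T + 2 * ε ≤ 2 * (E ^ 2 * Be (P.s - 1)) := by linarith
  -- the smallness
  set N1 := P.r + 4 with hN1
  set N2 := N1 + S.gN with hN2
  have hsN : P.s - 1 = N2 + 5 := by omega
  have hBe : 200 * Be (P.s - 1) ≤ 1 / 2 ^ (2 ^ N2) := by
    rw [hsN, Be_eq, mul_div_assoc']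
    refine div_pow_le (e := 9) one_pos (by norm_num) ?_
    have : 2 ^ (N2 + 5) = 32 * 2 ^ N2 := by rw [pow_add]; ring
    have : 1 ≤ 2 ^ N2 := Nat.one_le_two_pow
    omega
  refine sys_gap S hS N1 N2 (by omega) le_rfl (fun i => z (P.vU i 0) / E) ?_ ?_ ?_
  · intro i hi
    obtain ⟨r1, r2⟩ := inst_rng h _ (v5 i hi 0 (by norm_num))
    rw [abs_div, abs_of_pos hEpos, div_le_iff₀ hEpos]
    have h3 : |z (P.vU i 0)| ≤ 2 := by rw [abs_le]; constructor <;> linarith
    refine h3.trans ?_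
    have h4 : 2 ≤ 2 ^ (2 ^ N1) * Lo P.r := by
      rw [Lo_eq, mul_div_assoc', le_div_iff₀ (two_pow_pos _)]
      have h5 : (2 : ℝ) ^ (5 * 2 ^ P.r) ≤ 2 ^ (2 ^ N1) := by
        apply pow_le_pow_right₀ (by norm_num)
        have : 2 ^ N1 = 16 * 2 ^ P.r := by rw [hN1, pow_add]; ring
        omega
      have h6 := two_pow_pos (5 * 2 ^ P.r)
      linarith
    calc (2 : ℝ) ≤ 2 ^ (2 ^ N1) * Lo P.r := h4
      _ ≤ 2 ^ (2 ^ N1) * E := by gcongr
  · intro f hf
    have hw := hS.1 f hf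
    have h3 := lin_sound h (by linarith) hf hw.2.1 hw.2.2
    unfold Form.eval
    rw [lsum_div]
    have h4 : (f.1 : ℝ) + lsum (fun i => z (P.vU i 0)) f.2 / E =
        ((f.1 : ℝ) * E + lsum (fun i => z (P.vU i 0)) f.2) / E := by
      field_simp
    rw [h4, abs_div, abs_of_pos hEpos, div_le_iff₀ hEpos]
    refine h3.trans ?_
    calc 57 * (T + ε) ≤ 57 * (2 * (E ^ 2 * Be (P.s - 1))) := by linarith
      _ = (114 * Be (P.s - 1)) * (E * E) := by ring
      _ ≤ (200 * Be (P.s - 1)) * (1 * E) := by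
          have := Be_pos (P.s - 1)
          gcongr
          · norm_num
      _ ≤ (1 / 2 ^ (2 ^ N2)) * (1 * E) := by gcongr
      _ = _ := by ring
  · intro q hq
    obtain ⟨i, hi, rfl⟩ := List.mem_iff_getElem.1 hq
    have hw := hS.2 S.sqs[i] hq
    have h3 := sq_sound h hε0 (by linarith) hEε hm hi hw.1 hw.2
    have h4 : z (P.vU S.sqs[i].2 0) / E - (z (P.vU S.sqs[i].1 0) / E) ^ 2 =
        (E * z (P.vU S.sqs[i].2 0) - z (P.vU S.sqs[i].1 0) ^ 2) / E ^ 2 := by
      field_simp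
    show |z (P.vU S.sqs[i].2 0) / E - (z (P.vU S.sqs[i].1 0) / E) ^ 2| ≤ _
    rw [h4, abs_div, abs_of_pos (show 0 < E ^ 2 by positivity), div_le_iff₀ (by positivity)]
    refine h3.trans ?_
    calc 20 * (T + 2 * ε) ≤ 20 * (2 * (E ^ 2 * Be (P.s - 1))) := by linarith
      _ = (40 * Be (P.s - 1)) * E ^ 2 := by ring
      _ ≤ (200 * Be (P.s - 1)) * E ^ 2 := by
          have := Be_pos (P.s - 1)
          gcongr
          norm_num
      _ ≤ (1 / 2 ^ (2 ^ N2)) * E ^ 2 := by gcongr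

end Pool.Agent.Lib.MP_6ff0c5_lc.LQ
end

section

/-!
MP_6ff0c5_lc: completeness of the reduction from systems to LQ instances, II.
-/

set_option autoImplicit false

namespace Pool.Agent.Lib.MP_6ff0c5_lc.LQ

theorem lsum_mapIdx (z : ℕ → ℝ) (P : Par) (E : ℝ) (u : ℕ → ℝ) (hU : ∀ i p, p < 8 → z (P.vU i p) = E * u i)
    (l : List (ℤ × ℕ)) (hl : l.length ≤ 8) :
    lsum z (l.mapIdx fun p e => (e.1, P.vU e.2 p)) = E * lsum u l := by
  have : ∀ (l : List (ℤ × ℕ)) (o : ℕ), o + l.length ≤ 8 →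
      lsum z (l.mapIdx fun p e => (e.1, P.vU e.2 (p + o))) = E * lsum u l := by
    intro l
    induction l with
    | nil => intro o _; simp [lsum]
    | cons e l ih =>
      intro o ho
      have ih' := ih (o + 1) (by simp only [List.length_cons] at ho; omega)
      have e1 : lsum z ((e :: l).mapIdx fun p e => (e.1, P.vU e.2 (p + o))) =
          (e.1 : ℝ) * z (P.vU e.2 o) + lsum z (l.mapIdx fun p e => (e.1, P.vU e.2 (p + (o + 1)))) := by
        rw [List.mapIdx_cons]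
        unfold lsum
        rw [List.map_cons, List.sum_cons, zero_add]
        congr 5
        ext p e
        · rfl
        · show P.vU e.2 (p + 1 + o) = P.vU e.2 (p + (o + 1))
          congr 1
          omega
      have e2 : lsum u (e :: l) = (e.1 : ℝ) * u e.2 + lsum u l := by
        unfold lsum
        rw [List.map_cons, List.sum_cons]
      rw [e1, e2, ih', hU _ _ (by simp only [List.length_cons] at ho; omega)]
      ring
  exact this l 0 (by omega)

/-- **Completeness**, general parameters. -/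
theorem comp_gen {P : Par} {S : Sys} (hS : S.WF) {u : ℕ → ℝ} (hu : S.Sat u) {ν : ℝ} (hν : 0 < ν)
    (hm : P.m = S.sqs.length) (hE8 : Dv P.r ≤ 1 / 8) (hu1 : ∀ i < S.n, 1 ≤ u i ∧ Dv P.r * u i ≤ 1 / 8)
    (hT2 : 80 * ν ≤ Tv (Dv P.r) P.s ^ 2) :
    (P.inst S).Sol (-ν) (zv P (Dv P.r) (Tv (Dv P.r) P.s) (2 * ν) u S.sqs) := by
  obtain ⟨E, hE⟩ : ∃ E, E = Dv P.r := ⟨_, rfl⟩
  obtain ⟨T, hT⟩ : ∃ T, T = Tv E P.s := ⟨_, rfl⟩
  obtain ⟨μ, hμ⟩ : ∃ μ, μ = 2 * ν := ⟨_, rfl⟩
  rw [← hE] at hE8 hu1 hT2 ⊢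
  rw [← hT] at hT2 ⊢
  rw [← hμ]
  obtain ⟨z, hz⟩ : ∃ z, z = zv P E T μ u S.sqs := ⟨_, rfl⟩
  rw [← hz]
  have hE0 : 0 < E := by rw [hE]; exact Dv_pos _
  have hE1 : E ≤ 1 := by linarith
  have hT0 : 0 < T := by rw [hT]; exact Tv_pos hE0 _
  have hTE : T ≤ E / 2 := by rw [hT]; exact Tv_le hE0 hE1 _
  have hμT : 40 * μ ≤ T ^ 2 := by rw [hμ]; linarith
  have hμT1 : 40 * μ ≤ T := by nlinarith
  have zG : ∀ g < P.G, z (3 * g) = (tri P E T μ u S.sqs g).1 ∧
    z (3 * g + 1) = (tri P E T μ u S.sqs g).2.1 ∧ z (3 * g + 2) = (tri P E T μ u S.sqs g).2.2 := by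
    intro g hg; rw [hz]; exact zv_gate P E T μ u S.sqs hg
  have zh : z P.vh = 5 / 8 := by rw [hz]; exact zv_h P E T μ u S.sqs
  have zh' : z P.vh' = 1 / 2 := by rw [hz]; exact zv_h' P E T μ u S.sqs
  have zD : ∀ k ≤ P.r, z (P.vD k) = Dv k := by intro k hk; rw [hz]; exact zv_D P E T μ u S.sqs hk
  have zT : ∀ k ≤ P.s, z (P.vT k) = Tv E k := by intro k hk; rw [hz]; exact zv_T P E T μ u S.sqs hk
  have zU : ∀ i p, p < 8 → z (P.vU i p) = E * u i := by intro i p hp; rw [hz]; exact zv_U P E T μ u S.sqs hp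
  have zDr : z (P.vD P.r) = E := by rw [zD _ le_rfl, hE]
  have zTs : z (P.vT P.s) = T := by rw [zT _ le_rfl, hT]
  have hDk : ∀ k ≤ P.r, E ≤ Dv k := fun k hk => by rw [hE]; exact Dv_anti hk
  have hTk : ∀ k ≤ P.s, T ≤ Tv E k := fun k hk => by rw [hT]; exact Tv_anti hE0 hE1 hk
  have hD1 : ∀ k, Dv (k + 1) ≤ 9 / 32 := by
    intro k
    have h1 := Dv_anti (show 1 ≤ k + 1 by omega)
    have h2 := Dv_succ 0
    rw [Dv_zero] at h2
    norm_num at h2
    linarith
  have hTle : ∀ k, Tv E k ≤ E / 2 := Tv_le hE0 hE1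
  -- the data of a squaring
  have hq : ∀ q < S.sqs.length, ∃ i j, S.sqs.getD q (0, 0) = (i, j) ∧ i < S.n ∧ j < S.n ∧ u j = u i ^ 2 := by
    intro q hq
    refine ⟨S.sqs[q].1, S.sqs[q].2, ?_, (hS.2 _ (List.getElem_mem hq)).1, (hS.2 _ (List.getElem_mem hq)).2,
      hu.2 _ (List.getElem_mem hq)⟩
    rw [List.getD_eq_getElem _ _ hq]
  have hGm : P.G = P.r + P.s + 2 * S.sqs.length := by unfold Par.G; rw [hm]
  -- gates
  have hgate : ∀ g < P.G, (ν < (tri P E T μ u S.sqs g).1 ∧ (tri P E T μ u S.sqs g).1 < 1 - ν) ∧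
      (ν < (tri P E T μ u S.sqs g).2.1 ∧ (tri P E T μ u S.sqs g).2.1 < 1 - ν) ∧
      (ν < (tri P E T μ u S.sqs g).2.2 ∧ (tri P E T μ u S.sqs g).2.2 < 1 - ν) ∧
      ν < gateVal (P.gate g) (tri P E T μ u S.sqs g).1 (tri P E T μ u S.sqs g).2.1 (tri P E T μ u S.sqs g).2.2 := by
    intro g hg
    unfold tri Par.gate
    by_cases h1 : g < P.r
    · rw [if_pos h1, if_pos h1]
      have d1 := hDk g h1.le
      have d2 := hDk (g + 1) h1
      have d3 := hD1 g
      have d4 := Dv_le g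
      have d5 := Dv_succ g
      refine ⟨⟨by simp only; linarith, by simp only; linarith⟩, ⟨by simp only; linarith, by simp only; linarith⟩,
        ⟨by simp only; linarith, by simp only; linarith⟩, ?_⟩
      simp only [gateVal, Bool.false_eq_true, if_false]
      refine compI (by linarith) (by linarith) (by linarith) (by linarith) (by linarith) (by linarith) ?_
      have h3 : T ^ 2 ≤ (E / 2) ^ 2 := pow_le_pow_left₀ hT0.le hTE 2
      have h4 : E ^ 2 ≤ Dv g ^ 2 := pow_le_pow_left₀ hE0.le d1 2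
      have e1 : (5 / 8 + Dv (g + 1)) ^ 2 = (5 / 8 - Dv (g + 1)) ^ 2 + 5 / 2 * Dv (g + 1) := by ring
      rw [e1, d5]
      linarith
    · rw [if_neg h1, if_neg h1]
      by_cases h2 : g < P.r + P.s
      · rw [if_pos h2, if_pos h2]
        have d1 := hTk (g - P.r) (by omega)
        have d2 := hTk (g - P.r + 1) (by omega)
        have d3 := hTle (g - P.r)
        have d4 := hTle (g - P.r + 1)
        have d5 := Tv_succ E (g - P.r)
        refine ⟨⟨by simp only; linarith, by simp only; linarith⟩, ⟨by simp only; linarith, by simp only; linarith⟩,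
          ⟨by simp only; linarith, by simp only; linarith⟩, ?_⟩
        simp only [gateVal, if_true]
        refine compII (by linarith) (by linarith) (by linarith) (by linarith) (by linarith) ?_
        have h4 : T ^ 2 ≤ Tv E (g - P.r) ^ 2 := pow_le_pow_left₀ hT0.le d1 2
        have e1 : (5 / 8 + Tv E (g - P.r + 1)) ^ 2 =
            (5 / 8 - Tv E (g - P.r + 1)) ^ 2 + 5 / 2 * Tv E (g - P.r + 1) := by ring
        rw [e1, d5]
        linarith
      · rw [if_neg h2, if_neg h2]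
        obtain ⟨i, j, hij, hi, hj, huj⟩ := hq ((g - (P.r + P.s)) / 2) (by omega)
        rw [hij]
        obtain ⟨a1, a2⟩ := hu1 i hi
        obtain ⟨b1, b2⟩ := hu1 j hj
        have a3 : E ≤ E * u i := le_mul_of_one_le_right hE0.le a1
        have b3 : E ≤ E * u j := le_mul_of_one_le_right hE0.le b1
        have key : E * (E * u j) = (E * u i) ^ 2 := by rw [huj]; ring
        obtain ⟨X, hX⟩ : ∃ X, X = E * u i := ⟨_, rfl⟩
        obtain ⟨Y, hY⟩ : ∃ Y, Y = E * u j := ⟨_, rfl⟩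
        rw [← hX] at a2 a3 key
        rw [← hY] at b2 b3 key
        by_cases h3 : (g - (P.r + P.s)) % 2 = 0
        · rw [if_pos h3]
          simp only [h3, decide_true, ← hX, ← hY]
          refine ⟨⟨by linarith, by linarith⟩, ⟨by linarith, by linarith⟩, ⟨by linarith, by linarith⟩, ?_⟩
          simp only [gateVal, if_true]
          refine compII (by linarith) (by linarith) (by linarith) (by linarith) (by linarith) ?_
          have e1 : (Y - E + T) ^ 2 + (2 * X + T) ^ 2 = (Y + E) ^ 2 + 2 * T ^ 2 + 2 * (T * (Y - E)) +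
              4 * (T * X) + 4 * (X ^ 2 - E * Y) := by ring
          rw [e1, key]
          have h5 : 0 ≤ T * (Y - E) := mul_nonneg hT0.le (by linarith)
          have h6 : 0 ≤ T * X := mul_nonneg hT0.le (by linarith)
          linarith
        · rw [if_neg h3]
          simp only [h3, decide_false, ← hX, ← hY]
          refine ⟨⟨by linarith, by linarith⟩, ⟨by linarith, by linarith⟩, ⟨by linarith, by linarith⟩, ?_⟩
          simp only [gateVal, Bool.false_eq_true, if_false]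
          refine compI (by linarith) (by linarith) (by linarith) (by linarith) (by linarith) (by linarith) ?_
          have e1 : (Y + E + T) ^ 2 = (Y - E) ^ 2 + (2 * X) ^ 2 + T ^ 2 + 2 * (T * (Y + E)) +
              4 * (E * Y - X ^ 2) := by ring
          rw [e1, key]
          have h5 : 0 ≤ T * (Y + E) := mul_nonneg hT0.le (by linarith)
          linarith
  refine ⟨?_, ?_, ?_⟩
  · -- ranges
    intro i hi
    rw [neg_neg, ← sub_eq_add_neg]
    have hi' : i < 3 * P.G + (P.r + P.s + 4 + 8 * S.n) := by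
      unfold Inst.N Par.inst at hi
      simpa using hi
    by_cases h1 : i < 3 * P.G
    · obtain ⟨g1, g2, g3, -⟩ := hgate (i / 3) (by omega)
      rw [hz]
      unfold zv
      rw [if_pos h1]
      split_ifs
      · exact g1
      · exact g2
      · exact g3
    · rw [hz]
      unfold zv plainV
      rw [if_neg h1]
      split_ifs with c1 c2 c3 c4
      · constructor <;> linarith
      · constructor <;> linarith
      · have d1 := hDk (i - 3 * P.G - 2) (by omega)
        have d2 := Dv_le (i - 3 * P.G - 2)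
        constructor <;> linarith
      · have d1 := hTk (i - 3 * P.G - (P.r + 3)) (by omega)
        have d2 := hTle (i - 3 * P.G - (P.r + 3))
        constructor <;> linarith
      · obtain ⟨a1, a2⟩ := hu1 ((i - 3 * P.G - (P.r + P.s + 4)) / 8) (by omega)
        have a3 : E ≤ E * u ((i - 3 * P.G - (P.r + P.s + 4)) / 8) := le_mul_of_one_le_right hE0.le a1
        constructor <;> linarith
  · -- forms
    intro f hf
    rw [neg_neg]
    unfold Par.inst at hf
    simp only [List.mem_append, List.mem_flatMap, List.mem_range] at hf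
    rcases hf with hf | ⟨k, hk, hf⟩ | ⟨k, hk, hf⟩ | ⟨i, hi, hf⟩ | ⟨l, hl, hf⟩ | ⟨⟨q, qi⟩, hq', hf⟩
    · have zT0 := zT 0 (Nat.zero_le _)
      rw [Tv_zero] at zT0
      have zD0 := zD 0 (Nat.zero_le _)
      rw [Dv_zero] at zD0
      unfold Par.fbase at hf
      simp only [List.mem_cons, List.not_mem_nil, or_false] at hf
      rcases hf with rfl | rfl | rfl | rfl | rfl <;>
      · simp only [Form.eval, lsum, List.map_cons, List.map_nil, List.sum_cons, List.sum_nil, zh, zh', zDr, zT0, zD0]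
        push_cast
        linarith
    · have d1 := zD k hk.le
      have d2 := zD (k + 1) hk
      have hkG : k < P.G := by unfold Par.G; omega
      obtain ⟨g1, g2, g3⟩ := zG k hkG
      unfold tri at g1 g2 g3
      rw [if_pos hk] at g1 g2 g3
      unfold Par.fD at hf
      simp only [List.mem_cons, List.not_mem_nil, or_false] at hf
      rcases hf with rfl | rfl | rfl <;>
      · simp only [Form.eval, lsum, List.map_cons, List.map_nil, List.sum_cons, List.sum_nil, zh, d1, d2, g1, g2, g3]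
        push_cast
        linarith
    · have d1 := zT k hk.le
      have d2 := zT (k + 1) hk
      have hkG : P.r + k < P.G := by unfold Par.G; omega
      obtain ⟨g1, g2, g3⟩ := zG (P.r + k) hkG
      unfold tri at g1 g2 g3
      have e1 : P.r + k - P.r = k := by omega
      rw [if_neg (by omega), if_pos (by omega), e1] at g1 g2 g3
      unfold Par.fT at hf
      simp only [List.mem_cons, List.not_mem_nil, or_false] at hf
      rcases hf with rfl | rfl | rfl <;>
      · simp only [Form.eval, lsum, List.map_cons, List.map_nil, List.sum_cons, List.sum_nil, zh, d1, d2, g1, g2, g3]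
        push_cast
        linarith
    · unfold Par.fC at hf
      simp only [List.mem_flatMap, List.mem_range, List.mem_cons, List.not_mem_nil, or_false] at hf
      obtain ⟨p, hp, hf⟩ := hf
      have u1 := zU i p (by omega)
      have u2 := zU i (p + 1) (by omega)
      rcases hf with rfl | rfl <;>
      · simp only [Form.eval, lsum, List.map_cons, List.map_nil, List.sum_cons, List.sum_nil, zTs, u1, u2]
        push_cast
        linarith
    · have hw := hS.1 l hl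
      have hs := hu.1 l hl
      unfold Form.eval at hs
      have e1 := lsum_mapIdx z P E u zU l.2 hw.2.1
      have e2 := lsum_neg z l.2 P
      have e3 : (l.1 : ℝ) * E + E * lsum u l.2 = 0 := by
        have : (l.1 : ℝ) * E + E * lsum u l.2 = E * ((l.1 : ℝ) + lsum u l.2) := by ring
        rw [this, hs, mul_zero]
      unfold Par.fL at hf
      simp only [List.mem_cons, List.not_mem_nil, or_false] at hf
      rcases hf with rfl | rfl
      · have : Form.eval z (0, (l.1, P.vD P.r) :: (1, P.vT P.s) :: l.2.mapIdx fun p e => (e.1, P.vU e.2 p)) =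
            (l.1 : ℝ) * z (P.vD P.r) + (z (P.vT P.s) + lsum z (l.2.mapIdx fun p e => (e.1, P.vU e.2 p))) := by
          unfold Form.eval lsum
          simp only [List.map_cons, List.sum_cons]
          push_cast
          ring
        rw [this, zDr, zTs, e1]
        linarith
      · have : Form.eval z (0, (-l.1, P.vD P.r) :: (1, P.vT P.s) :: l.2.mapIdx fun p e => (-e.1, P.vU e.2 p)) =
            -(l.1 : ℝ) * z (P.vD P.r) + (z (P.vT P.s) + lsum z (l.2.mapIdx fun p e => (-e.1, P.vU e.2 p))) := by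
          unfold Form.eval lsum
          simp only [List.map_cons, List.sum_cons]
          push_cast
          ring
        rw [this, zDr, zTs, e2, e1]
        linarith
    · rw [List.mem_iff_getElem] at hq'
      obtain ⟨q', hq'', he⟩ := hq'
      rw [List.getElem_zipIdx] at he
      simp only [Nat.zero_add, Prod.mk.injEq] at he
      obtain ⟨he1, he2⟩ := he
      subst he2
      have hql : q' < S.sqs.length := by simpa using hq''
      obtain ⟨i, j, hij, hi, hj, huj⟩ := hq q' hql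
      have hqe : q = (i, j) := by
        rw [← he1, ← hij, List.getD_eq_getElem _ _ hql]
      subst hqe
      have u1 := zU i 0 (by norm_num)
      have u2 := zU i 1 (by norm_num)
      have u3 := zU j 0 (by norm_num)
      obtain ⟨g1, g2, g3⟩ := zG (P.r + P.s + 2 * q') (by omega)
      obtain ⟨g4, g5, g6⟩ := zG (P.r + P.s + 2 * q' + 1) (by omega)
      unfold tri at g1 g2 g3 g4 g5 g6
      have e1 : (P.r + P.s + 2 * q' - (P.r + P.s)) % 2 = 0 := by omega
      have e2 : (P.r + P.s + 2 * q' - (P.r + P.s)) / 2 = q' := by omega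
      have e3 : ¬ (P.r + P.s + 2 * q' + 1 - (P.r + P.s)) % 2 = 0 := by omega
      have e4 : (P.r + P.s + 2 * q' + 1 - (P.r + P.s)) / 2 = q' := by omega
      rw [if_neg (by omega), if_neg (by omega), if_pos e1, e2, hij] at g1 g2 g3
      rw [if_neg (by omega), if_neg (by omega), if_neg e3, e4, hij] at g4 g5 g6
      unfold Par.fS at hf
      simp only [List.mem_cons, List.not_mem_nil, or_false] at hf
      rcases hf with rfl | rfl | rfl | rfl | rfl | rfl <;>
      · simp only [Form.eval, lsum, List.map_cons, List.map_nil, List.sum_cons, List.sum_nil, zDr, zTs, u1, u2, u3,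
          g1, g2, g3, g4, g5, g6]
        push_cast
        linarith
  · -- gates
    intro g hg
    have hg' : g < P.G := by unfold Par.inst at hg; simpa using hg
    have h3 : (P.inst S).gates[g] = P.gate g := by
      simp only [Par.inst, List.getElem_map, List.getElem_range]
    obtain ⟨g1, g2, g3⟩ := zG g hg'
    rw [neg_neg, h3, g1, g2, g3]
    exact (hgate g hg').2.2.2

/-- **Completeness.** -/
theorem red_complete {S : Sys} (hS : S.WF) (ρ : ℕ) {u : ℕ → ℝ} (hu : S.Sat u)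
    (hu1 : ∀ i < S.n, 1 ≤ u i ∧ u i ≤ 2 ^ (2 ^ ρ)) :
    ∃ z, (red ρ S).1.Sol (-(1 / 2 ^ (2 ^ (red ρ S).2))) z := by
  obtain ⟨P, hP⟩ : ∃ P, P = S.par ρ := ⟨_, rfl⟩
  obtain ⟨K, hK⟩ : ∃ K, K = P.r + P.s + 10 := ⟨_, rfl⟩
  have hK2 : (red ρ S).2 = K := by rw [hK, hP]; rfl
  have hI : (red ρ S).1 = P.inst S := by rw [hP]; rfl
  have hr : P.r = S.gN + ρ + 3 := by rw [hP]; rfl
  have hm : P.m = S.sqs.length := by rw [hP]; rfl
  have h2ρ : 1 ≤ 2 ^ ρ := Nat.one_le_two_pow
  have h2r : 8 * 2 ^ ρ ≤ 2 ^ P.r := by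
    have : 2 ^ P.r = 2 ^ S.gN * (8 * 2 ^ ρ) := by rw [hr, pow_add, pow_add]; ring
    rw [this]
    exact Nat.le_mul_of_pos_left _ (by positivity)
  have hE8 : Dv P.r ≤ 1 / 8 := by
    refine (Dv_up P.r).trans ?_
    have := div_pow_le (c := 2) (d := 1) (a := 2 ^ P.r) (b := 3) (e := 1) one_pos (by norm_num) (by omega)
    refine this.trans ?_
    norm_num
  rw [hK2, hI]
  refine ⟨_, comp_gen hS hu (by positivity) hm hE8 (fun i hi => ⟨(hu1 i hi).1, ?_⟩) ?_⟩
  · have h1 : Dv P.r ≤ (1 / 8) / 2 ^ (2 ^ ρ) :=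
      (Dv_up P.r).trans (div_pow_le (e := 4) (by norm_num) (by norm_num) (by omega))
    calc Dv P.r * u i ≤ (1 / 8) / 2 ^ (2 ^ ρ) * 2 ^ (2 ^ ρ) :=
          mul_le_mul h1 (hu1 i hi).2 (zero_le_one.trans (hu1 i hi).1) (by positivity)
      _ = 1 / 8 := by field_simp
  · have h1 := Dv_low P.r
    have hE0 := Dv_pos P.r
    have h2 : (1 / 4) / 2 ^ (2 * 2 ^ P.r) ≤ Dv P.r / 8 := by
      have : (1 / 4 : ℝ) / 2 ^ (2 * 2 ^ P.r) = (2 / 2 ^ (2 * 2 ^ P.r)) / 8 := by ring
      rw [this]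
      linarith
    have h3 : (1 : ℝ) / 2 ^ (2 + 2 * 2 ^ P.r) ≤ Dv P.r / 8 := by
      have : (1 : ℝ) / 2 ^ (2 + 2 * 2 ^ P.r) = (1 / 4) / 2 ^ (2 * 2 ^ P.r) := by
        rw [pow_add]
        field_simp
        norm_num
      rw [this]
      exact h2
    have h4 : 4 * (1 / 2 ^ (2 + 2 * 2 ^ P.r)) ^ (2 ^ P.s) ≤ Tv (Dv P.r) P.s := by
      unfold Tv
      gcongr
    have h5 : (16 : ℝ) / 2 ^ ((2 + 2 * 2 ^ P.r) * 2 ^ P.s * 2) = (4 * (1 / 2 ^ (2 + 2 * 2 ^ P.r)) ^ (2 ^ P.s)) ^ 2 := by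
      rw [one_div, inv_pow, mul_pow, inv_pow, ← pow_mul, ← pow_mul, div_eq_mul_inv, mul_assoc]
      norm_num
    have h6 : (4 * (1 / 2 ^ (2 + 2 * 2 ^ P.r)) ^ (2 ^ P.s)) ^ 2 ≤ Tv (Dv P.r) P.s ^ 2 :=
      pow_le_pow_left₀ (by positivity) h4 2
    refine le_trans ?_ h6
    rw [← h5, mul_one_div]
    refine div_pow_le (e := 3) (by norm_num) (by norm_num) ?_
    have h7 : 2 ^ K = 1024 * (2 ^ P.r * 2 ^ P.s) := by rw [hK, pow_add, pow_add]; ring
    have h8 : (2 + 2 * 2 ^ P.r) * 2 ^ P.s * 2 = 4 * 2 ^ P.s + 4 * (2 ^ P.r * 2 ^ P.s) := by ring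
    have h9 : 2 ^ P.s ≤ 2 ^ P.r * 2 ^ P.s := Nat.le_mul_of_pos_left _ (by positivity)
    have h10 : 1 ≤ 2 ^ P.s := Nat.one_le_two_pow
    omega

end Pool.Agent.Lib.MP_6ff0c5_lc.LQ
end
end

section

/-!
MP_6ff0c5_lc: the produced LQ instances are well-formed.
-/

set_option autoImplicit false

namespace Pool.Agent.Lib.MP_6ff0c5_lc.LQ

theorem mapIdx_nodup (P : Par) (l : List (ℤ × ℕ)) (hl : l.length ≤ 8) :
    (l.mapIdx fun p e => P.vU e.2 p).Nodup := by
  rw [List.nodup_iff_injective_getElem]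
  intro a b hab
  have ha : (a : ℕ) < l.length := by simpa using a.2
  have hb : (b : ℕ) < l.length := by simpa using b.2
  simp only [List.getElem_mapIdx] at hab
  unfold Par.vU at hab
  ext
  omega

theorem inst_wf {P : Par} {S : Sys} (hS : S.WF) (hm : P.m = S.sqs.length) : (P.inst S).WF := by
  intro f hf
  have hN : (P.inst S).N = 3 * P.G + (P.r + P.s + 4 + 8 * S.n) := by unfold Inst.N Par.inst; simp
  rw [hN]
  unfold Par.inst at hf
  simp only [List.mem_append, List.mem_flatMap, List.mem_range] at hf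
  rcases hf with hf | ⟨k, hk, hf⟩ | ⟨k, hk, hf⟩ | ⟨i, hi, hf⟩ | ⟨l, hl, hf⟩ | ⟨⟨q, qi⟩, hq', hf⟩
  · unfold Par.fbase at hf
    simp only [List.mem_cons, List.not_mem_nil, or_false] at hf
    unfold Par.vh Par.vh' Par.vD Par.vT at hf
    rcases hf with rfl | rfl | rfl | rfl | rfl <;> refine ⟨by simp, ?_, ?_⟩ <;>
      simp <;> omega
  · unfold Par.fD Par.vh Par.vD at hf
    simp only [List.mem_cons, List.not_mem_nil, or_false] at hf
    have hG : k < P.G := by unfold Par.G; omega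
    rcases hf with rfl | rfl | rfl <;> refine ⟨by simp, ?_, ?_⟩ <;>
      simp <;> omega
  · unfold Par.fT Par.vh Par.vT at hf
    simp only [List.mem_cons, List.not_mem_nil, or_false] at hf
    have hG : P.r + k < P.G := by unfold Par.G; omega
    rcases hf with rfl | rfl | rfl <;> refine ⟨by simp, ?_, ?_⟩ <;>
      simp <;> omega
  · unfold Par.fC Par.vU Par.vT at hf
    simp only [List.mem_flatMap, List.mem_range, List.mem_cons, List.not_mem_nil, or_false] at hf
    obtain ⟨p, hp, hf⟩ := hf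
    rcases hf with rfl | rfl <;> refine ⟨by simp, ?_, ?_⟩ <;>
      simp <;> omega
  · obtain ⟨w1, w2, w3⟩ := hS.1 l hl
    have hnd := mapIdx_nodup P l.2 w2
    have hidx : ∀ x ∈ l.2.mapIdx fun p e => P.vU e.2 p, 3 * P.G + P.r + P.s + 4 ≤ x ∧
        x < 3 * P.G + (P.r + P.s + 4 + 8 * S.n) := by
      intro x hx
      obtain ⟨p, hp, rfl⟩ := List.mem_iff_getElem.1 hx
      have hp' : p < l.2.length := by simpa using hp
      rw [List.getElem_mapIdx]
      have := (w3 _ (List.getElem_mem hp')).2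
      unfold Par.vU
      omega
    have hco : ∀ c : ℤ → ℤ, (∀ a, (a = -1 ∨ a = 0 ∨ a = 1) → (c a = -1 ∨ c a = 0 ∨ c a = 1)) →
        ((0, (c l.1, P.vD P.r) :: (1, P.vT P.s) :: l.2.mapIdx fun p e => (c e.1, P.vU e.2 p)) : Form).1 = 0 ∧
        (∀ e ∈ ((0, (c l.1, P.vD P.r) :: (1, P.vT P.s) :: l.2.mapIdx fun p e => (c e.1, P.vU e.2 p)) : Form).2,
          (e.1 = -1 ∨ e.1 = 0 ∨ e.1 = 1) ∧ e.2 < 3 * P.G + (P.r + P.s + 4 + 8 * S.n)) ∧
        (((0, (c l.1, P.vD P.r) :: (1, P.vT P.s) :: l.2.mapIdx fun p e => (c e.1, P.vU e.2 p)) : Form).2.map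
          Prod.snd).Nodup := by
      intro c hc
      refine ⟨rfl, ?_, ?_⟩
      · intro e he
        rcases List.mem_cons.1 he with rfl | he
        · exact ⟨hc _ w1, by unfold Par.vD; omega⟩
        rcases List.mem_cons.1 he with rfl | he
        · exact ⟨by simp, by unfold Par.vT; omega⟩
        · obtain ⟨p, hp, rfl⟩ := List.mem_iff_getElem.1 he
          have hp' : p < l.2.length := by simpa using hp
          rw [List.getElem_mapIdx]
          have h3 := w3 _ (List.getElem_mem hp')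
          refine ⟨hc _ h3.1, ?_⟩
          unfold Par.vU
          simp only
          omega
      · simp only [List.map_cons, List.nodup_cons]
        have e1 : (l.2.mapIdx fun p e => (c e.1, P.vU e.2 p)).map Prod.snd = l.2.mapIdx fun p e => P.vU e.2 p := by
          apply List.ext_getElem
          · simp
          · intro i h1 h2
            simp
        rw [e1]
        refine ⟨?_, ?_, hnd⟩
        · rw [List.mem_cons, not_or]
          constructor
          · unfold Par.vD Par.vT; omega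
          · intro hmem
            have := hidx _ hmem
            unfold Par.vD at this
            omega
        · intro hmem
          have := hidx _ hmem
          unfold Par.vT at this
          omega
    unfold Par.fL at hf
    simp only [List.mem_cons, List.not_mem_nil, or_false] at hf
    rcases hf with rfl | rfl
    · obtain ⟨a1, a2, a3⟩ := hco id (fun a h => h)
      exact ⟨Or.inr (Or.inl a1), a2, a3⟩
    · obtain ⟨a1, a2, a3⟩ := hco (fun a => -a) (fun a h => by rcases h with h | h | h <;> rw [h] <;> simp)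
      exact ⟨Or.inr (Or.inl a1), a2, a3⟩
  · rw [List.mem_iff_getElem] at hq'
    obtain ⟨q', hq'', he⟩ := hq'
    rw [List.getElem_zipIdx] at he
    simp only [Nat.zero_add, Prod.mk.injEq] at he
    obtain ⟨he1, he2⟩ := he
    subst he2
    have hql : q' < S.sqs.length := by simpa using hq''
    have hw := hS.2 S.sqs[q'] (List.getElem_mem hql)
    have he1' : q = S.sqs[q'] := he1.symm
    subst he1'
    have hG : P.G = P.r + P.s + 2 * S.sqs.length := by unfold Par.G; rw [hm]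
    unfold Par.fS Par.vU Par.vD Par.vT at hf
    simp only [List.mem_cons, List.not_mem_nil, or_false] at hf
    rcases hf with rfl | rfl | rfl | rfl | rfl | rfl <;> refine ⟨by simp, ?_, ?_⟩ <;>
      simp <;> omega

theorem red_wf {S : Sys} (hS : S.WF) (ρ : ℕ) : (red ρ S).1.WF := inst_wf hS rfl

end Pool.Agent.Lib.MP_6ff0c5_lc.LQ
end
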